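import Pool.Agent.Work.MP_1ce445_s8.TG
import Pool.Agent.Work.MP_1ce445_win.ALW

/-!
The statement `Stmt_ALG` of `MP_1ce445_win` from the statement `Stmt_ALG` of `MP_1ce445_s8`.
-/

namespace Pool.Agent.Work.MP_1ce445_s8

open Finset Pool.Agent.Work.MP_1ce445_co_56 Pool.Agent.Work.MP_1ce445_lin

theorem stmt_ALW8 (h : Stmt_ALG) : Pool.Agent.Work.MP_1ce445_win.Stmt_ALG := by
  intro V _ k M T c hK hx
  have hg : Kg M T c := by
    refine ⟨hK.pos, hK.sub, by linarith [hK.cl], by linarith [hK.cu], hK.few, ?_⟩
    intro x1 x2 x3 x4 hnd h12 h13 h14 h23 h24 h34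
    apply hx
    refine ⟨![x1, x2, x3, x4], ?_, ?_⟩
    · simp only [List.nodup_cons, List.mem_cons, List.not_mem_nil, or_false, not_or,
        List.nodup_nil, and_true, not_false_eq_true] at hnd
      obtain ⟨⟨a1, a2, a3⟩, ⟨a4, a5⟩, a6⟩ := hnd
      intro i j hij
      fin_cases i <;> fin_cases j <;> simp_all
    · intro i j hij
      have s12 := h12.2
      have s13 := h13.2
      have s14 := h14.2
      have s23 := h23.2
      have s24 := h24.2
      have s34 := h34.2
      have c12 : ∃ v, T v = {x2, x1} := by simpa only [Finset.pair_comm] using s12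
      have c13 : ∃ v, T v = {x3, x1} := by simpa only [Finset.pair_comm] using s13
      have c14 : ∃ v, T v = {x4, x1} := by simpa only [Finset.pair_comm] using s14
      have c23 : ∃ v, T v = {x3, x2} := by simpa only [Finset.pair_comm] using s23
      have c24 : ∃ v, T v = {x4, x2} := by simpa only [Finset.pair_comm] using s24
      have c34 : ∃ v, T v = {x4, x3} := by simpa only [Finset.pair_comm] using s34
      fin_cases i <;> fin_cases j <;> first | exact absurd rfl hij | assumption
  have h1 := h M T c hg
  unfold Bd at h1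
  rw [BB_of_in hK.cl (by linarith [hK.cu])] at h1
  exact h1

end Pool.Agent.Work.MP_1ce445_s8
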