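import Pool.Agent.Work.MP_1ce445_s8.Interface

/-! # Block C5 (MP_1ce445_co, theorem S7): the 5-cycle -/

namespace Pool.Agent.Work.MP_1ce445_s8

open Finset Pool.Agent.Work.MP_1ce445_co_56 Pool.Agent.Work.MP_1ce445_lin

theorem C5_fin2 (t : Fin 5 → Bool) (i : Fin 5) (ht : ∀ x, t x = decide (x = i ∨ x = i + 1)) :
    (6 : ℝ) ≤ 2 + (∑ i, if t i = true then (2 : ℝ) - 1 else 0) +
      ∑ i, if t i = false ∧ t (i + 1) = false then (1 : ℝ) else 0 := by
  have e0 := ht 0
  have e1 := ht 1
  have e2 := ht 2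
  have e3 := ht 3
  have e4 := ht 4
  clear ht
  simp only [Fin.sum_univ_five, show (0 : Fin 5) + 1 = 1 from rfl, show (1 : Fin 5) + 1 = 2 from rfl,
    show (2 : Fin 5) + 1 = 3 from rfl, show (3 : Fin 5) + 1 = 4 from rfl,
    show (4 : Fin 5) + 1 = 0 from rfl]
  revert e0 e1 e2 e3 e4
  fin_cases i <;> intro e0 e1 e2 e3 e4 <;> simp at e0 e1 e2 e3 e4 <;>
    simp [e0, e1, e2, e3, e4] <;> norm_num

theorem C5_fin3 (t : Fin 5 → Bool) (w : ℝ) (h3 : 3 ≤ w)
    (h4 : ∑ i, (if t i = true then (1 : ℝ) else 0) ≤ w) :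
    (6 : ℝ) ≤ w + (∑ i, if t i = true then (2 : ℝ) - 1 else 0) +
      ∑ i, if t i = false ∧ t (i + 1) = false then (1 : ℝ) else 0 := by
  simp only [Fin.sum_univ_five, show (0 : Fin 5) + 1 = 1 from rfl, show (1 : Fin 5) + 1 = 2 from rfl,
    show (2 : Fin 5) + 1 = 3 from rfl, show (3 : Fin 5) + 1 = 4 from rfl,
    show (4 : Fin 5) + 1 = 0 from rfl] at h4 ⊢
  rcases e0 : t 0 with _ | _ <;> rcases e1 : t 1 with _ | _ <;> rcases e2 : t 2 with _ | _ <;>
    rcases e3 : t 3 with _ | _ <;> rcases e4 : t 4 with _ | _ <;>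
    simp [e0, e1, e2, e3, e4] at h4 ⊢ <;>
    norm_num at h4 ⊢ <;> linarith

/-- a present pair is missed by at most `c N` sets -/
theorem C5_miss {V : Type} [Fintype V] {k : ℕ} (M : Finset (Fin k)) (T : V → Finset (Fin k))
    (c : ℝ) (hK : Kf M T c) (a b : Fin k) (h : R T a b) :
    (∑ v : V, if a ∉ T v ∧ b ∉ T v then (1 : ℝ) else 0) ≤ c * Fintype.card V := by
  classical
  obtain ⟨_, v0, hv0⟩ := h
  have hf := hK.few v0
  rw [← Finset.sum_filter, Finset.sum_const, nsmul_eq_mul, mul_one]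
  refine le_trans ?_ hf
  apply le_of_eq
  congr 2
  ext w
  simp only [Finset.mem_filter, Finset.mem_univ, true_and, hv0]
  constructor
  · rintro ⟨ha, hb⟩
    ext z
    simp only [Finset.mem_inter, Finset.mem_insert, Finset.mem_singleton, Finset.notMem_empty,
      iff_false, not_and]
    rintro (rfl | rfl)
    · exact ha
    · exact hb
  · intro hw
    have hz : ∀ z, z ∈ ({a, b} : Finset (Fin k)) → z ∉ T w := by
      intro z hz hzw
      have : z ∈ ({a, b} : Finset (Fin k)) ∩ T w := Finset.mem_inter.2 ⟨hz, hzw⟩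
      rw [hw] at this
      exact absurd this (Finset.notMem_empty z)
    exact ⟨hz a (by simp), hz b (by simp)⟩

theorem stmt_C5 (h1 : Stmt_TG) (h2 : Stmt_LPC) : Stmt_C5 := by
  classical
  intro V _ k M T c hK p hinj hR hT
  have hN : (0 : ℝ) < Fintype.card V := by exact_mod_cast hK.pos
  have key := h2 M T hK.pos hK.sub 5 p (fun _ => 2)
    (fun v => ∑ i : Fin 5, if p i ∉ T v ∧ p (i + 1) ∉ T v then (1 : ℝ) else 0) 6 hinj
    (fun _ => by norm_num)
    (by
      intro v
      rcases (hK.two v).eq_or_lt with h | h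
      · obtain ⟨i, hi⟩ := hT v h.symm
        have h4 := C5_fin2 (fun x => decide (p x ∈ T v)) i (by
          intro x
          rw [hi]
          simp only [Finset.mem_insert, Finset.mem_singleton, hinj.eq_iff])
        have hc : ((T v).card : ℝ) = 2 := by exact_mod_cast h.symm
        rw [hc]
        simpa only [decide_eq_true_eq, decide_eq_false_iff_not] using h4
      · have h5 : (3 : ℝ) ≤ ((T v).card : ℝ) := by exact_mod_cast h
        have h6 : ∑ i, (if (fun x => decide (p x ∈ T v)) i = true then (1 : ℝ) else 0) ≤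
            ((T v).card : ℝ) := by
          simp only [decide_eq_true_eq]
          rw [← Finset.sum_filter, Finset.sum_const, nsmul_eq_mul, mul_one]
          have h7 : ((univ.filter (fun i => p i ∈ T v)).image p).card ≤ (T v).card := by
            apply Finset.card_le_card
            intro x hx
            obtain ⟨i, hi, rfl⟩ := Finset.mem_image.1 hx
            exact (Finset.mem_filter.1 hi).2
          rw [Finset.card_image_of_injective _ hinj] at h7
          exact_mod_cast h7
        have h4 := C5_fin3 (fun x => decide (p x ∈ T v)) ((T v).card : ℝ) h5 h6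
        simpa only [decide_eq_true_eq, decide_eq_false_iff_not] using h4)
  unfold Bd
  refine key.trans ?_
  have hsum : (∑ v : V, ∑ i : Fin 5, (if p i ∉ T v ∧ p (i + 1) ∉ T v then (1 : ℝ) else 0)) /
      Fintype.card V ≤ 5 * c := by
    rw [div_le_iff₀ hN, Finset.sum_comm]
    have m : ∀ i : Fin 5, (∑ v : V, if p i ∉ T v ∧ p (i + 1) ∉ T v then (1 : ℝ) else 0) ≤
        c * Fintype.card V := fun i => C5_miss M T c hK (p i) (p (i + 1)) (hR i)
    have m2 := Finset.sum_le_sum (fun i (_ : i ∈ (univ : Finset (Fin 5))) => m i)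
    rw [Finset.sum_const, Finset.card_univ, Fintype.card_fin, nsmul_eq_mul] at m2
    push_cast at m2
    linarith
  have hsq : 0 ≤ ∑ x ∈ M.filter (fun x => ∀ i, x ≠ p i), pr T x ^ 2 :=
    Finset.sum_nonneg (fun x _ => sq_nonneg _)
  have hlog := Real.log_two_gt_d9
  refine le_trans (Real.exp_le_exp.2 ?_) (h1 c (-(44657 / 10000)) 5 hK.cl hK.cu (by norm_num)
    (by norm_num) (by norm_num))
  rw [Finset.sum_const, Finset.card_univ, Fintype.card_fin, nsmul_eq_mul]
  push_cast
  linarith

end Pool.Agent.Work.MP_1ce445_s8
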