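import Pool.Agent.Work.MP_1ce445_s8.Interface

/-! Block CIA of THEOREM S7 (MP_1ce445_co). -/

namespace Pool.Agent.Work.MP_1ce445_s8

open Finset Pool.Agent.Work.MP_1ce445_co_56 Pool.Agent.Work.MP_1ce445_lin

theorem CIA_miss {V : Type} [Fintype V] {k : ℕ} {M : Finset (Fin k)} {T : V → Finset (Fin k)}
    {c : ℝ} (h : Kf M T c) {a b : Fin k} (hab : R T a b) :
    (∑ v, if a ∉ T v ∧ b ∉ T v then (1 : ℝ) else 0) ≤ c * Fintype.card V := by
  obtain ⟨-, v0, hv0⟩ := hab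
  have h1 := h.few v0
  rw [Finset.sum_boole]
  refine le_trans (le_of_eq ?_) h1
  have h2 : (univ.filter (fun v => a ∉ T v ∧ b ∉ T v)) =
      univ.filter (fun w => T v0 ∩ T w = ∅) := by
    ext w
    simp only [mem_filter, mem_univ, true_and, hv0]
    constructor
    · rintro ⟨ha, hb⟩
      rw [Finset.eq_empty_iff_forall_notMem]
      intro x hx
      rw [mem_inter, mem_insert, mem_singleton] at hx
      obtain ⟨hx1 | hx1, hx2⟩ := hx
      · exact ha (hx1 ▸ hx2)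
      · exact hb (hx1 ▸ hx2)
    · intro hw
      rw [Finset.eq_empty_iff_forall_notMem] at hw
      constructor
      · intro ha
        exact hw a (mem_inter.2 ⟨mem_insert_self _ _, ha⟩)
      · intro hb
        exact hw b (mem_inter.2 ⟨mem_insert_of_mem (mem_singleton_self _), hb⟩)
  rw [h2]

theorem CIA_three {V : Type} [Fintype V] {k : ℕ} {M : Finset (Fin k)} {T : V → Finset (Fin k)}
    {c : ℝ} (h : Kf M T c) {a b : Fin k} (hab : a ≠ b) (hR : ¬ R T a b) (v : V)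
    (ha : a ∈ T v) (hb : b ∈ T v) : (3 : ℝ) ≤ ((T v).card : ℝ) := by
  have h2 := h.two v
  by_contra hlt
  push Not at hlt
  have hlt' : (T v).card < 3 := by exact_mod_cast hlt
  have h3 : (T v).card = 2 := by omega
  apply hR
  refine ⟨hab, v, ?_⟩
  symm
  apply Finset.eq_of_subset_of_card_le
  · intro x hx
    rw [mem_insert, mem_singleton] at hx
    rcases hx with hx | hx
    · exact hx ▸ ha
    · exact hx ▸ hb
  · rw [h3, Finset.card_pair hab]

theorem stmt_CIA (hTG : Stmt_TG) (hLPC : Stmt_LPC) (hC4S : Stmt_C4S) : Stmt_CIA := by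
  intro V _ k M T c hK x1 x2 x3 x4 hnd h13 h14 h23 h24 h12 h34 htr
  have hnd' := hnd
  simp only [List.nodup_cons, List.mem_cons, List.not_mem_nil, or_false, not_or,
    not_false_eq_true, List.nodup_nil, and_true] at hnd'
  obtain ⟨⟨n12, n13, n14⟩, ⟨n23, n24⟩, n34⟩ := hnd'
  have hN : (0 : ℝ) < Fintype.card V := by exact_mod_cast hK.pos
  set p : Fin 4 → Fin k := ![x1, x2, x3, x4] with hp
  have hinj : Function.Injective p := by
    intro i j hij
    fin_cases i <;> fin_cases j <;> simp_all [p, eq_comm]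
  set l : Fin 4 → ℝ := ![2, 2, 21 / 10, 21 / 10] with hl
  set ph : V → ℝ := fun v =>
    11 / 10 * (if x1 ∉ T v ∧ x3 ∉ T v then (1 : ℝ) else 0) +
    11 / 10 * (if x1 ∉ T v ∧ x4 ∉ T v then (1 : ℝ) else 0) +
    11 / 10 * (if x2 ∉ T v ∧ x3 ∉ T v then (1 : ℝ) else 0) +
    11 / 10 * (if x2 ∉ T v ∧ x4 ∉ T v then (1 : ℝ) else 0) +
    1 / 5 * (if x1 ∈ T v ∧ x2 ∈ T v ∧ x3 ∉ T v ∧ x4 ∉ T v then (1 : ℝ) else 0) with hph
  have hl1 : ∀ i, 1 ≤ l i := by
    intro i
    fin_cases i <;> simp [l] <;> norm_num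
  have hKb : ∀ v, (26 / 5 : ℝ) ≤
      ((T v).card : ℝ) + (∑ i, if p i ∈ T v then l i - 1 else 0) + ph v := by
    intro v
    have h2 : (2 : ℝ) ≤ ((T v).card : ℝ) := by exact_mod_cast hK.two v
    have e12 : x1 ∈ T v → x2 ∈ T v → (3 : ℝ) ≤ ((T v).card : ℝ) :=
      fun a b => CIA_three hK n12 h12 v a b
    have e34 : x3 ∈ T v → x4 ∈ T v → (3 : ℝ) ≤ ((T v).card : ℝ) :=
      fun a b => CIA_three hK n34 h34 v a b
    have hs : (∑ i, if p i ∈ T v then l i - 1 else 0) =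
        (if x1 ∈ T v then (2 : ℝ) - 1 else 0) + (if x2 ∈ T v then (2 : ℝ) - 1 else 0) +
        (if x3 ∈ T v then (21 / 10 : ℝ) - 1 else 0) +
        (if x4 ∈ T v then (21 / 10 : ℝ) - 1 else 0) := by
      rw [Fin.sum_univ_four]
      rfl
    rw [hs]
    simp only [hph]
    by_cases a1 : x1 ∈ T v <;> by_cases a2 : x2 ∈ T v <;> by_cases a3 : x3 ∈ T v <;>
      by_cases a4 : x4 ∈ T v <;>
      simp only [a1, a2, a3, a4, if_true, if_false, not_true_eq_false, not_false_eq_true,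
        and_true, and_false, true_and, false_and, forall_const, forall_true_left,
        IsEmpty.forall_iff] at e12 e34 ⊢ <;>
      linarith
  have hmain := hLPC M T hK.pos hK.sub 4 p l ph (26 / 5) hinj hl1 hKb
  have hc := hC4S M T c hK x1 x2 x3 x4 hnd
  refine hmain.trans ?_
  have hsum : (∑ v, ph v) ≤
      22 / 5 * (c * Fintype.card V) + 1 / 5 * (tr T x1 x2 x3 x4 * Fintype.card V) := by
    have m13 := CIA_miss hK h13
    have m14 := CIA_miss hK h14
    have m23 := CIA_miss hK h23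
    have m24 := CIA_miss hK h24
    have ht : (∑ v, if x1 ∈ T v ∧ x2 ∈ T v ∧ x3 ∉ T v ∧ x4 ∉ T v then (1 : ℝ) else 0) =
        tr T x1 x2 x3 x4 * Fintype.card V := by
      rw [Finset.sum_boole, tr, div_mul_cancel₀ _ hN.ne']
    have he : (∑ v, ph v) =
        11 / 10 * (∑ v, if x1 ∉ T v ∧ x3 ∉ T v then (1 : ℝ) else 0) +
        11 / 10 * (∑ v, if x1 ∉ T v ∧ x4 ∉ T v then (1 : ℝ) else 0) +
        11 / 10 * (∑ v, if x2 ∉ T v ∧ x3 ∉ T v then (1 : ℝ) else 0) +
        11 / 10 * (∑ v, if x2 ∉ T v ∧ x4 ∉ T v then (1 : ℝ) else 0) +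
        1 / 5 * (∑ v, if x1 ∈ T v ∧ x2 ∈ T v ∧ x3 ∉ T v ∧ x4 ∉ T v then (1 : ℝ) else 0) := by
      simp only [hph, Finset.sum_add_distrib, Finset.mul_sum]
    rw [he, ht]
    linarith
  have hdiv : (∑ v, ph v) / Fintype.card V ≤ 22 / 5 * c + 1 / 5 * tr T x1 x2 x3 x4 := by
    rw [div_le_iff₀ hN]
    linarith
  have hsq : 1 / 5 * (tr T x1 x2 x3 x4 - c) ≤
      (∑ x ∈ M.filter (fun x => ∀ i, x ≠ p i), pr T x ^ 2) / 2 := by
    by_cases hcase : tr T x1 x2 x3 x4 ≤ c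
    · have h0 : (0 : ℝ) ≤ ∑ x ∈ M.filter (fun x => ∀ i, x ≠ p i), pr T x ^ 2 :=
        Finset.sum_nonneg (fun x _ => sq_nonneg _)
      linarith
    · push Not at hcase
      have h1 : 1 / 10 * (tr T x1 x2 x3 x4 - c) ≤
          tr T x3 x4 x1 x2 * (tr T x1 x2 x3 x4 - c) :=
        mul_le_mul_of_nonneg_right htr (by linarith)
      have h2 : 4 * (tr T x3 x4 x1 x2 * (tr T x1 x2 x3 x4 - c)) ≤
          ∑ x ∈ M.filter (fun x => ∀ i, x ≠ p i), pr T x ^ 2 := hc
      linarith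
  have hlog : (∑ i, (l i - 1 - Real.log (l i))) =
      16 / 5 + 1 - 2 * Real.log 2 - 2 * Real.log (21 / 10) := by
    rw [Fin.sum_univ_four]
    simp [l]
    ring
  have hlog2 : (0.6931471803 : ℝ) < Real.log 2 := Real.log_two_gt_d9
  have hlog21 : (740766 / 1000000 : ℝ) ≤ Real.log (21 / 10) := by
    have h1 : (1 - (21 / 20 : ℝ)⁻¹) ≤ Real.log (21 / 20) :=
      Real.one_sub_inv_le_log_of_pos (by norm_num)
    have h2 : Real.log (21 / 10) = Real.log 2 + Real.log (21 / 20) := by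
      rw [← Real.log_mul (by norm_num) (by norm_num)]
      norm_num
    rw [h2]
    have h3 : (1 - (21 / 20 : ℝ)⁻¹) = 1 / 21 := by norm_num
    rw [h3] at h1
    norm_num at hlog2 ⊢
    linarith
  have hfin := hTG c (21 / 5 - 2 * Real.log 2 - 2 * Real.log (21 / 10) - 26 / 5) (23 / 5)
    hK.cl hK.cu (by norm_num) (by norm_num at hlog2 ⊢; linarith) (by norm_num at hlog2 ⊢; linarith)
  refine le_trans (Real.exp_le_exp.2 ?_) hfin
  rw [hlog]
  linarith

end Pool.Agent.Work.MP_1ce445_s8
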