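import Pool.Agent.Work.MP_1ce445_s8.Interface

/-!
Block CL7 of THEOREM S7 (MP_1ce445_co): a symmetric irreflexive relation is one of nine types.
-/

namespace Pool.Agent.Work.MP_1ce445_s8

open Finset Pool.Agent.Work.MP_1ce445_co_56 Pool.Agent.Work.MP_1ce445_lin

theorem CL7_nd6 {k : ℕ} {a b c d e f : Fin k}
    (h : (a ≠ b ∧ a ≠ c ∧ a ≠ d ∧ a ≠ e ∧ a ≠ f) ∧ (b ≠ c ∧ b ≠ d ∧ b ≠ e ∧ b ≠ f) ∧
      (c ≠ d ∧ c ≠ e ∧ c ≠ f) ∧ (d ≠ e ∧ d ≠ f) ∧ e ≠ f) : [a, b, c, d, e, f].Nodup := by
  simp only [List.nodup_cons, List.mem_cons, List.not_mem_nil, List.nodup_nil, or_false, not_or]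
  tauto

theorem CL7_nd5 {k : ℕ} {a b c d e : Fin k}
    (h : (a ≠ b ∧ a ≠ c ∧ a ≠ d ∧ a ≠ e) ∧ (b ≠ c ∧ b ≠ d ∧ b ≠ e) ∧
      (c ≠ d ∧ c ≠ e) ∧ d ≠ e) : [a, b, c, d, e].Nodup := by
  simp only [List.nodup_cons, List.mem_cons, List.not_mem_nil, List.nodup_nil, or_false, not_or]
  tauto

theorem CL7_nd4 {k : ℕ} {a b c d : Fin k}
    (h : (a ≠ b ∧ a ≠ c ∧ a ≠ d) ∧ (b ≠ c ∧ b ≠ d) ∧ c ≠ d) : [a, b, c, d].Nodup := by
  simp only [List.nodup_cons, List.mem_cons, List.not_mem_nil, List.nodup_nil, or_false, not_or]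
  tauto

/-- The hypotheses: symmetric, irreflexive, no three disjoint pairs, no 4-cycle, no triangle with a disjoint pair. -/
structure CL7_H {k : ℕ} (Q : Fin k → Fin k → Prop) : Prop where
  sy : ∀ a b, Q a b → Q b a
  ir : ∀ a, ¬ Q a a
  n2 : ∀ a1 b1 a2 b2 a3 b3, [a1, b1, a2, b2, a3, b3].Nodup → Q a1 b1 → Q a2 b2 → Q a3 b3 → False
  n3 : ∀ x1 x2 x3 x4, [x1, x2, x3, x4].Nodup → Q x1 x3 → Q x1 x4 → Q x2 x3 → Q x2 x4 → False
  n4 : ∀ x1 x2 x3 y1 y2, [x1, x2, x3, y1, y2].Nodup → Q x1 x2 → Q x2 x3 → Q x3 x1 → Q y1 y2 → False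

/-- alternative (6) -/
def CL7_6 {k : ℕ} (Q : Fin k → Fin k → Prop) : Prop :=
  ∃ x y z w, [x, y, z, w].Nodup ∧ Q x y ∧ Q x z ∧ Q y z ∧ Q x w ∧
      ∀ u v, Q u v → u = x ∨ v = x ∨ (u = y ∧ v = z) ∨ (u = z ∧ v = y)

/-- alternative (7) -/
def CL7_7 {k : ℕ} (Q : Fin k → Fin k → Prop) : Prop :=
  ∃ p : Fin 5 → Fin k, Function.Injective p ∧ (∀ i, Q (p i) (p (i + 1))) ∧
      ∀ u v, Q u v → ∃ i, (u = p i ∧ v = p (i + 1)) ∨ (v = p i ∧ u = p (i + 1))

/-- alternative (8) -/
def CL7_8 {k : ℕ} (Q : Fin k → Fin k → Prop) : Prop :=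
  ∃ x y a b, [x, y, a, b].Nodup ∧ Q x a ∧ ¬ Q y a ∧ Q y b ∧ ¬ Q x b ∧
      ∀ u v, Q u v → u = x ∨ v = x ∨ u = y ∨ v = y

/-- the pairs with `a`, with `c`, and `b d` are all pairs -/
theorem CL7_close {k : ℕ} {Q : Fin k → Fin k → Prop} (sy : ∀ a b, Q a b → Q b a) {a b c d : Fin k}
    (hE : ∀ u v, Q u v → u = a ∨ v = a ∨ u = c ∨ v = c ∨ (u = b ∧ v = d) ∨ (u = d ∧ v = b))
    (S : Fin k → Fin k → Prop) (hS : ∀ u v, S u v → S v u)
    (ha : ∀ v, Q a v → S a v) (hc : ∀ v, Q c v → S c v) (hbd : Q b d → S b d) :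
    ∀ u v, Q u v → S u v := by
  intro u v huv
  rcases hE u v huv with e | e | e | e | ⟨e, e'⟩ | ⟨e, e'⟩
  · subst e; exact ha v huv
  · subst e; exact hS _ _ (ha u (sy _ _ huv))
  · subst e; exact hc v huv
  · subst e; exact hS _ _ (hc u (sy _ _ huv))
  · subst e; subst e'; exact hbd huv
  · subst e; subst e'; exact hS _ _ (hbd (sy _ _ huv))

/-- Making alternative (7). -/
theorem CL7_mk7 {k : ℕ} (Q : Fin k → Fin k → Prop) (a b c d w : Fin k)
    (hnd : [a, b, c, d, w].Nodup) (h1 : Q a b) (h2 : Q b c) (h3 : Q c d) (h4 : Q d w) (h5 : Q w a)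
    (h : ∀ u v, Q u v → (u = a ∧ v = b) ∨ (u = b ∧ v = a) ∨ (u = b ∧ v = c) ∨ (u = c ∧ v = b) ∨
      (u = c ∧ v = d) ∨ (u = d ∧ v = c) ∨ (u = d ∧ v = w) ∨ (u = w ∧ v = d) ∨ (u = w ∧ v = a) ∨
      (u = a ∧ v = w)) : CL7_7 Q := by
  refine ⟨![a, b, c, d, w], ?_, ?_, ?_⟩
  · have h0 := List.nodup_iff_injective_get.1 hnd
    have : (![a, b, c, d, w] : Fin 5 → Fin k) = [a, b, c, d, w].get := by
      funext i
      fin_cases i <;> rfl
    rw [this]
    exact h0
  · intro i
    fin_cases i
    · exact h1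
    · exact h2
    · exact h3
    · exact h4
    · exact h5
  · intro u v huv
    rcases h u v huv with e | e | e | e | e | e | e | e | e | e
    · exact ⟨0, Or.inl e⟩
    · exact ⟨0, Or.inr ⟨e.2, e.1⟩⟩
    · exact ⟨1, Or.inl e⟩
    · exact ⟨1, Or.inr ⟨e.2, e.1⟩⟩
    · exact ⟨2, Or.inl e⟩
    · exact ⟨2, Or.inr ⟨e.2, e.1⟩⟩
    · exact ⟨3, Or.inl e⟩
    · exact ⟨3, Or.inr ⟨e.2, e.1⟩⟩
    · exact ⟨4, Or.inl e⟩
    · exact ⟨4, Or.inr ⟨e.2, e.1⟩⟩

/-- Every pair meets the union of two disjoint pairs. -/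
theorem CL7_meet {k : ℕ} {Q : Fin k → Fin k → Prop} (H : CL7_H Q) (a b c d : Fin k)
    (hnd : [a, b, c, d].Nodup) (hab : Q a b) (hcd : Q c d) (u v : Fin k) (huv : Q u v) :
    (u = a ∨ u = b ∨ u = c ∨ u = d) ∨ (v = a ∨ v = b ∨ v = c ∨ v = d) := by
  by_contra hcon
  push Not at hcon
  have huv' : u ≠ v := fun e => H.ir v (e ▸ huv)
  simp only [List.nodup_cons, List.mem_cons, List.not_mem_nil, List.nodup_nil, or_false, not_or] at hnd
  exact H.n2 a b c d u v (CL7_nd6 (by grind)) hab hcd huv

/-- One of `a`, `b` has no neighbours outside. -/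
theorem CL7_out {k : ℕ} {Q : Fin k → Fin k → Prop} (H : CL7_H Q) (a b c d : Fin k)
    (hnd : [a, b, c, d].Nodup) (hab : Q a b) (hcd : Q c d) :
    (∀ z, Q a z → z = b ∨ z = c ∨ z = d) ∨ (∀ z, Q b z → z = a ∨ z = c ∨ z = d) := by
  by_contra hcon
  push Not at hcon
  obtain ⟨⟨w, hw, w1, w2, w3⟩, ⟨z, hz, z1, z2, z3⟩⟩ := hcon
  have haw : a ≠ w := fun e => H.ir w (e ▸ hw)
  have hbz : b ≠ z := fun e => H.ir z (e ▸ hz)
  simp only [List.nodup_cons, List.mem_cons, List.not_mem_nil, List.nodup_nil, or_false, not_or] at hnd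
  by_cases e : w = z
  · subst e
    exact H.n4 a b w c d (CL7_nd5 (by grind)) hab hz (H.sy _ _ hw) hcd
  · exact H.n2 a w b z c d (CL7_nd6 (by grind)) hw hz hcd

/-- `b` and `d` have no neighbours outside, `b c` is not a pair. -/
theorem CL7_half {k : ℕ} {Q : Fin k → Fin k → Prop} (H : CL7_H Q) (a b c d : Fin k)
    (hnd : [a, b, c, d].Nodup) (hab : Q a b) (hcd : Q c d)
    (hb : ∀ z, Q b z → z = a ∨ z = c ∨ z = d) (hd : ∀ z, Q d z → z = a ∨ z = b ∨ z = c)
    (hbc : ¬ Q b c) : CL7_6 Q ∨ CL7_7 Q ∨ CL7_8 Q := by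
  have hnd' := hnd
  simp only [List.nodup_cons, List.mem_cons, List.not_mem_nil, List.nodup_nil, or_false, not_or] at hnd'
  have hmeet := CL7_meet H a b c d hnd hab hcd
  have hE0 : ∀ u v, Q u v → (u = a ∨ u = b ∨ u = c ∨ u = d) →
      u = a ∨ v = a ∨ u = c ∨ v = c ∨ (u = b ∧ v = d) ∨ (u = d ∧ v = b) := by
    intro u v huv hu
    rcases hu with e | e | e | e
    · exact Or.inl e
    · subst e
      rcases hb v huv with h | h | h
      · exact Or.inr (Or.inl h)
      · exact Or.inr (Or.inr (Or.inr (Or.inl h)))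
      · exact Or.inr (Or.inr (Or.inr (Or.inr (Or.inl ⟨rfl, h⟩))))
    · exact Or.inr (Or.inr (Or.inl e))
    · subst e
      rcases hd v huv with h | h | h
      · exact Or.inr (Or.inl h)
      · exact Or.inr (Or.inr (Or.inr (Or.inr (Or.inr ⟨rfl, h⟩))))
      · exact Or.inr (Or.inr (Or.inr (Or.inl h)))
  have hE : ∀ u v, Q u v → u = a ∨ v = a ∨ u = c ∨ v = c ∨ (u = b ∧ v = d) ∨ (u = d ∧ v = b) := by
    intro u v huv
    rcases hmeet u v huv with h | h
    · exact hE0 u v huv h
    · have := hE0 v u (H.sy _ _ huv) h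
      clear * - this; tauto
  have hcb : ¬ Q c b := fun h => hbc (H.sy _ _ h)
  by_cases hbd : Q b d
  · have hac : ¬ Q a c := fun h => H.n3 a d b c (CL7_nd4 (by grind)) hab h (H.sy _ _ hbd) (H.sy _ _ hcd)
    have hca : ¬ Q c a := fun h => hac (H.sy _ _ h)
    by_cases had : Q a d
    · -- (iii)
      have oc : ∀ z, Q c z → z = a ∨ z = b ∨ z = d := by
        intro z hz
        by_contra hcon
        push Not at hcon
        have hcz : c ≠ z := fun e => H.ir z (e ▸ hz)
        exact H.n4 a b d c z (CL7_nd5 (by grind)) hab hbd (H.sy _ _ had) hz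
      have oc' : ∀ z, Q c z → z = d := by
        intro z hz
        rcases oc z hz with e | e | e
        · rw [e] at hz; exact absurd hz hca
        · rw [e] at hz; exact absurd hz hcb
        · exact e
      by_cases oa : ∀ z, Q a z → z = b ∨ z = c ∨ z = d
      · left
        refine ⟨d, a, b, c, CL7_nd4 (by grind), H.sy _ _ had, H.sy _ _ hbd, hab, H.sy _ _ hcd, ?_⟩
        refine CL7_close H.sy hE _ ?_ ?_ ?_ ?_
        · intro u v h; clear * - h; tauto
        · intro v hv
          rcases oa v hv with e | e | e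
          · tauto
          · rw [e] at hv; exact absurd hv hac
          · tauto
        · intro v hv
          have := oc' v hv
          tauto
        · intro _; tauto
      · push Not at oa
        obtain ⟨w, hw, w1, w2, w3⟩ := oa
        have haw : a ≠ w := fun e => H.ir w (e ▸ hw)
        right; right
        refine ⟨a, d, w, c, CL7_nd4 (by grind), hw, ?_, H.sy _ _ hcd, hac, ?_⟩
        · intro h
          have := hd w h
          grind
        · refine CL7_close H.sy hE _ ?_ ?_ ?_ ?_
          · intro u v h; clear * - h; tauto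
          · intro v hv; tauto
          · intro v hv
            have := oc' v hv
            clear * - this; tauto
          · intro _; tauto
    · -- only `b d`
      by_cases oa : ∀ z, Q a z → z = b ∨ z = c ∨ z = d
      · have oa' : ∀ z, Q a z → z = b := by
          intro z hz
          rcases oa z hz with e | e | e
          · exact e
          · rw [e] at hz; exact absurd hz hac
          · rw [e] at hz; exact absurd hz had
        by_cases oc : ∀ z, Q c z → z = a ∨ z = b ∨ z = d
        · have oc' : ∀ z, Q c z → z = d := by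
            intro z hz
            rcases oc z hz with e | e | e
            · rw [e] at hz; exact absurd hz hca
            · rw [e] at hz; exact absurd hz hcb
            · exact e
          right; right
          refine ⟨b, d, a, c, CL7_nd4 (by grind), H.sy _ _ hab, fun h => had (H.sy _ _ h),
            H.sy _ _ hcd, hbc, ?_⟩
          refine CL7_close H.sy hE _ ?_ ?_ ?_ ?_
          · intro u v h; clear * - h; tauto
          · intro v hv
            have := oa' v hv
            clear * - this; tauto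
          · intro v hv
            have := oc' v hv
            clear * - this; tauto
          · intro _; tauto
        · push Not at oc
          obtain ⟨w, hw, w1, w2, w3⟩ := oc
          have hcw : c ≠ w := fun e => H.ir w (e ▸ hw)
          right; right
          refine ⟨c, b, w, a, CL7_nd4 (by grind), hw, ?_, H.sy _ _ hab, hca, ?_⟩
          · intro h
            have := hb w h
            grind
          · refine CL7_close H.sy hE _ ?_ ?_ ?_ ?_
            · intro u v h; clear * - h; tauto
            · intro v hv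
              have := oa' v hv
              clear * - this; tauto
            · intro v hv; tauto
            · intro _; tauto
      · push Not at oa
        obtain ⟨w, hw, w1, w2, w3⟩ := oa
        have haw : a ≠ w := fun e => H.ir w (e ▸ hw)
        by_cases oc : ∀ z, Q c z → z = a ∨ z = b ∨ z = d
        · have oc' : ∀ z, Q c z → z = d := by
            intro z hz
            rcases oc z hz with e | e | e
            · rw [e] at hz; exact absurd hz hca
            · rw [e] at hz; exact absurd hz hcb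
            · exact e
          right; right
          refine ⟨a, d, w, c, CL7_nd4 (by grind), hw, ?_, H.sy _ _ hcd, hac, ?_⟩
          · intro h
            have := hd w h
            grind
          · refine CL7_close H.sy hE _ ?_ ?_ ?_ ?_
            · intro u v h; clear * - h; tauto
            · intro v hv; tauto
            · intro v hv
              have := oc' v hv
              clear * - this; tauto
            · intro _; tauto
        · push Not at oc
          obtain ⟨z, hz, z1, z2, z3⟩ := oc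
          have hcz : c ≠ z := fun e => H.ir z (e ▸ hz)
          have key : ∀ s, Q a s → s ≠ b → s = z := by
            intro s hs s1
            have has : a ≠ s := fun e => H.ir s (e ▸ hs)
            have s2 : s ≠ c := by
              intro e; rw [e] at hs; exact hac hs
            have s3 : s ≠ d := by
              intro e; rw [e] at hs; exact had hs
            by_contra e
            exact H.n2 a s c z b d (CL7_nd6 (by grind)) hs hz hbd
          have hwz : w = z := key w hw w1
          have key2 : ∀ s, Q c s → s ≠ d → s = w := by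
            intro s hs s1
            have hcs : c ≠ s := fun e => H.ir s (e ▸ hs)
            have s2 : s ≠ a := by
              intro e; rw [e] at hs; exact hca hs
            have s3 : s ≠ b := by
              intro e; rw [e] at hs; exact hcb hs
            by_contra e
            exact H.n2 a w c s b d (CL7_nd6 (by grind)) hw hs hbd
          rw [← hwz] at hz key
          right; left
          apply CL7_mk7 Q a b d c w (CL7_nd5 (by grind)) hab hbd (H.sy _ _ hcd) hz (H.sy _ _ hw)
          refine CL7_close H.sy hE _ ?_ ?_ ?_ ?_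
          · intro u v h
            rcases h with h | h | h | h | h | h | h | h | h | h
            · exact Or.inr (Or.inl h.symm)
            · exact Or.inl h.symm
            · exact Or.inr (Or.inr (Or.inr (Or.inl h.symm)))
            · exact Or.inr (Or.inr (Or.inl h.symm))
            · exact Or.inr (Or.inr (Or.inr (Or.inr (Or.inr (Or.inl h.symm)))))
            · exact Or.inr (Or.inr (Or.inr (Or.inr (Or.inl h.symm))))
            · exact Or.inr (Or.inr (Or.inr (Or.inr (Or.inr (Or.inr (Or.inr (Or.inl h.symm)))))))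
            · exact Or.inr (Or.inr (Or.inr (Or.inr (Or.inr (Or.inr (Or.inl h.symm))))))
            · exact Or.inr (Or.inr (Or.inr (Or.inr (Or.inr (Or.inr (Or.inr (Or.inr
                (Or.inr h.symm))))))))
            · exact Or.inr (Or.inr (Or.inr (Or.inr (Or.inr (Or.inr (Or.inr (Or.inr
                (Or.inl h.symm))))))))
          · intro v hv
            by_cases e : v = b
            · exact Or.inl ⟨rfl, e⟩
            · exact Or.inr (Or.inr (Or.inr (Or.inr (Or.inr (Or.inr (Or.inr (Or.inr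
                (Or.inr ⟨rfl, key v hv e⟩))))))))
          · intro v hv
            by_cases e : v = d
            · exact Or.inr (Or.inr (Or.inr (Or.inr (Or.inr (Or.inl ⟨rfl, e⟩)))))
            · exact Or.inr (Or.inr (Or.inr (Or.inr (Or.inr (Or.inr (Or.inl
                ⟨rfl, key2 v hv e⟩))))))
          · intro _
            exact Or.inr (Or.inr (Or.inl ⟨rfl, rfl⟩))
  · -- not `b d`: all pairs contain `a` or `c`
    have hall : ∀ u v, Q u v → u = a ∨ v = a ∨ u = c ∨ v = c := by
      refine CL7_close H.sy hE _ ?_ ?_ ?_ ?_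
      · intro u v h; clear * - h; tauto
      · intro v hv; tauto
      · intro v hv; tauto
      · intro h; exact absurd h hbd
    by_cases had : Q a d
    · by_cases oc : ∀ z, Q c z → z = a ∨ z = b ∨ z = d
      · by_cases hac : Q a c
        · left
          refine ⟨a, c, d, b, CL7_nd4 (by grind), hac, had, hcd, hab, ?_⟩
          refine CL7_close H.sy hE _ ?_ ?_ ?_ ?_
          · intro u v h; clear * - h; tauto
          · intro v hv; tauto
          · intro v hv
            rcases oc v hv with e | e | e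
            · tauto
            · rw [e] at hv; exact absurd hv hcb
            · tauto
          · intro h; exact absurd h hbd
        · right; right
          refine ⟨a, d, b, c, CL7_nd4 (by grind), hab, fun h => hbd (H.sy _ _ h), H.sy _ _ hcd, hac, ?_⟩
          refine CL7_close H.sy hE _ ?_ ?_ ?_ ?_
          · intro u v h; clear * - h; tauto
          · intro v hv; tauto
          · intro v hv
            rcases oc v hv with e | e | e
            · tauto
            · rw [e] at hv; exact absurd hv hcb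
            · tauto
          · intro h; exact absurd h hbd
      · push Not at oc
        obtain ⟨w, hw, w1, w2, w3⟩ := oc
        have hcw : c ≠ w := fun e => H.ir w (e ▸ hw)
        right; right
        refine ⟨a, c, b, w, CL7_nd4 (by grind), hab, hcb, hw, ?_, hall⟩
        intro h
        exact H.n3 a c d w (CL7_nd4 (by grind)) had h hcd hw
    · right; right
      exact ⟨a, c, b, d, CL7_nd4 (by grind), hab, hcb, hcd, had, hall⟩

/-- `b` and `d` have no neighbours outside. -/
theorem CL7_both {k : ℕ} {Q : Fin k → Fin k → Prop} (H : CL7_H Q) (a b c d : Fin k)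
    (hnd : [a, b, c, d].Nodup) (hab : Q a b) (hcd : Q c d)
    (hb : ∀ z, Q b z → z = a ∨ z = c ∨ z = d) (hd : ∀ z, Q d z → z = a ∨ z = b ∨ z = c) :
    CL7_6 Q ∨ CL7_7 Q ∨ CL7_8 Q := by
  by_cases hbc : Q b c
  · have hnd' := hnd
    simp only [List.nodup_cons, List.mem_cons, List.not_mem_nil, List.nodup_nil, or_false, not_or] at hnd'
    have had : ¬ Q d a := fun h => H.n3 a c b d (CL7_nd4 (by grind)) hab (H.sy _ _ h) (H.sy _ _ hbc) hcd
    refine CL7_half H c d a b (CL7_nd4 (by grind)) hcd hab ?_ ?_ had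
    · intro z hz
      have := hd z hz
      tauto
    · intro z hz
      have := hb z hz
      tauto
  · exact CL7_half H a b c d hnd hab hcd hb hd hbc

theorem stmt_CL7 : Stmt_CL7 := by
  intro k Q hs hi
  by_cases h0 : ∀ a b, ¬ Q a b
  · exact Or.inl h0
  right
  by_cases hst : ∃ x, ∀ u v, Q u v → u = x ∨ v = x
  · exact Or.inl hst
  right
  by_cases h2 : ∃ a1 b1 a2 b2 a3 b3, [a1, b1, a2, b2, a3, b3].Nodup ∧ Q a1 b1 ∧ Q a2 b2 ∧ Q a3 b3
  · exact Or.inl h2
  right
  by_cases h3 : ∃ x1 x2 x3 x4, [x1, x2, x3, x4].Nodup ∧ Q x1 x3 ∧ Q x1 x4 ∧ Q x2 x3 ∧ Q x2 x4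
  · exact Or.inl h3
  right
  by_cases h4 : ∃ x1 x2 x3 y1 y2, [x1, x2, x3, y1, y2].Nodup ∧ Q x1 x2 ∧ Q x2 x3 ∧ Q x3 x1 ∧ Q y1 y2
  · exact Or.inl h4
  right
  have H : CL7_H Q := by
    refine ⟨hs, hi, ?_, ?_, ?_⟩
    · intro a1 b1 a2 b2 a3 b3 hnd q1 q2 q3
      exact h2 ⟨a1, b1, a2, b2, a3, b3, hnd, q1, q2, q3⟩
    · intro x1 x2 x3 x4 hnd q1 q2 q3 q4
      exact h3 ⟨x1, x2, x3, x4, hnd, q1, q2, q3, q4⟩
    · intro x1 x2 x3 y1 y2 hnd q1 q2 q3 q4
      exact h4 ⟨x1, x2, x3, y1, y2, hnd, q1, q2, q3, q4⟩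
  push Not at h0
  by_cases h5 : ∃ a b c d, [a, b, c, d].Nodup ∧ Q a b ∧ Q c d
  · right
    obtain ⟨a, b, c, d, hnd, hab, hcd⟩ := h5
    have hnd' := hnd
    simp only [List.nodup_cons, List.mem_cons, List.not_mem_nil, List.nodup_nil, or_false, not_or] at hnd'
    have h678 : CL7_6 Q ∨ CL7_7 Q ∨ CL7_8 Q := by
      rcases CL7_out H a b c d hnd hab hcd with ha | hb <;>
        rcases CL7_out H c d a b (CL7_nd4 (by grind)) hcd hab with hc | hd
      · exact CL7_both H b a d c (CL7_nd4 (by grind)) (hs _ _ hab) (hs _ _ hcd)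
          (fun z hz => by have := ha z hz; tauto) (fun z hz => by have := hc z hz; tauto)
      · exact CL7_both H b a c d (CL7_nd4 (by grind)) (hs _ _ hab) hcd
          (fun z hz => by have := ha z hz; tauto) (fun z hz => by have := hd z hz; tauto)
      · exact CL7_both H a b d c (CL7_nd4 (by grind)) hab (hs _ _ hcd)
          (fun z hz => by have := hb z hz; tauto) (fun z hz => by have := hc z hz; tauto)
      · exact CL7_both H a b c d hnd hab hcd
          (fun z hz => by have := hb z hz; tauto) (fun z hz => by have := hd z hz; tauto)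
    exact h678
  · left
    obtain ⟨a, b, hab⟩ := h0
    have hne : a ≠ b := fun e => hi b (e ▸ hab)
    have hna : ∃ c, c ≠ a ∧ Q b c := by
      by_contra hcon
      push Not at hcon
      apply hst
      refine ⟨a, ?_⟩
      intro u v huv
      by_contra hc
      push Not at hc
      have huv' : u ≠ v := fun e => hi v (e ▸ huv)
      by_cases f1 : u = b
      · rw [f1] at huv
        exact hcon v hc.2 huv
      by_cases f2 : v = b
      · rw [f2] at huv
        exact hcon u hc.1 (hs _ _ huv)
      exact h5 ⟨a, b, u, v, CL7_nd4 (by grind), hab, huv⟩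
    have hnb : ∃ c, c ≠ b ∧ Q a c := by
      by_contra hcon
      push Not at hcon
      apply hst
      refine ⟨b, ?_⟩
      intro u v huv
      by_contra hc
      push Not at hc
      have huv' : u ≠ v := fun e => hi v (e ▸ huv)
      by_cases f1 : u = a
      · rw [f1] at huv
        exact hcon v hc.2 huv
      by_cases f2 : v = a
      · rw [f2] at huv
        exact hcon u hc.1 (hs _ _ huv)
      exact h5 ⟨a, b, u, v, CL7_nd4 (by grind), hab, huv⟩
    obtain ⟨c, hc1, hc2⟩ := hna
    obtain ⟨d, hd1, hd2⟩ := hnb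
    have hbc : b ≠ c := fun e => hi c (e ▸ hc2)
    have had : a ≠ d := fun e => hi d (e ▸ hd2)
    have hcd : c = d := by
      by_contra e
      exact h5 ⟨b, c, a, d, CL7_nd4 (by grind), hc2, hd2⟩
    rw [← hcd] at hd2
    refine ⟨a, b, c, hab, hc2, hs _ _ hd2, ?_⟩
    have key : ∀ u v, Q u v → u = a ∨ u = b ∨ u = c := by
      intro u v huv
      by_contra hcon
      push Not at hcon
      have huv' : u ≠ v := fun e => hi v (e ▸ huv)
      by_cases f1 : v = a
      · exact h5 ⟨u, v, b, c, CL7_nd4 (by grind), huv, hc2⟩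
      by_cases f2 : v = b
      · exact h5 ⟨u, v, a, c, CL7_nd4 (by grind), huv, hd2⟩
      exact h5 ⟨u, v, a, b, CL7_nd4 (by grind), huv, hab⟩
    exact fun u v huv => ⟨key u v huv, key v u (hs _ _ huv)⟩

end Pool.Agent.Work.MP_1ce445_s8
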