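import Pool.Agent.Work.MP_1ce445_s8.Interface

/-!
# Block D21 (MP_1ce445_co, theorem S7) (helper90)
-/

namespace Pool.Agent.Work.MP_1ce445_s8

open Finset Pool.Agent.Work.MP_1ce445_co_56 Pool.Agent.Work.MP_1ce445_lin

/-- the number of sets missing both points of a present pair -/
theorem D21_miss {V : Type} [Fintype V] {k : ℕ} {M : Finset (Fin k)} {T : V → Finset (Fin k)}
    {c : ℝ} (hK : Kf M T c) {p q : Fin k} (h : R T p q) :
    ((univ.filter (fun w => p ∉ T w ∧ q ∉ T w)).card : ℝ) ≤ c * Fintype.card V := by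
  obtain ⟨-, v, hv⟩ := h
  have h1 := hK.few v
  have h2 : univ.filter (fun w => p ∉ T w ∧ q ∉ T w) = univ.filter (fun w => T v ∩ T w = ∅) := by
    apply Finset.filter_congr
    intro w _
    rw [hv]
    constructor
    · rintro ⟨h3, h4⟩
      ext z
      simp only [Finset.mem_inter, Finset.mem_insert, Finset.mem_singleton, Finset.notMem_empty,
        iff_false, not_and]
      rintro (rfl | rfl)
      · exact h3
      · exact h4
    · intro h3
      constructor
      · intro h4
        have h5 : p ∈ ({p, q} : Finset (Fin k)) ∩ T w := by simp [h4]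
        rw [h3] at h5
        exact absurd h5 (Finset.notMem_empty _)
      · intro h4
        have h5 : q ∈ ({p, q} : Finset (Fin k)) ∩ T w := by simp [h4]
        rw [h3] at h5
        exact absurd h5 (Finset.notMem_empty _)
  rw [h2]
  exact h1

theorem D21_log : (72 / 25 : ℝ) ≤ Real.log 2 + 2 * Real.log 3 := by
  have h1 : Real.log 2 + 2 * Real.log 3 = 4 * Real.log 2 + Real.log (9 / 8) := by
    have e1 : Real.log (9 / 8) = 2 * Real.log 3 - 3 * Real.log 2 := by
      rw [Real.log_div (by norm_num) (by norm_num), show (9 : ℝ) = 3 ^ 2 by norm_num,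
        show (8 : ℝ) = 2 ^ 3 by norm_num, Real.log_pow, Real.log_pow]
      norm_num
    rw [e1]; ring
  have h2 := Real.log_two_gt_d9
  have h3 : (1 : ℝ) - (9 / 8)⁻¹ ≤ Real.log (9 / 8) :=
    Real.one_sub_inv_le_log_of_pos (by norm_num)
  have h4 : (1 : ℝ) - (9 / 8)⁻¹ = 1 / 9 := by norm_num
  rw [h1]
  linarith

theorem stmt_D21 (hTG : Stmt_TG) (hLPC : Stmt_LPC) : Stmt_D21 := by
  intro V _ k M T c hK hL x y a a' b hnd hxy hxa hxa' hyb h2
  have hN : 0 < Fintype.card V := hK.pos
  have hNR : (0 : ℝ) < Fintype.card V := by exact_mod_cast hN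
  simp only [List.nodup_cons, List.mem_cons, List.not_mem_nil, or_false, not_or,
    List.nodup_nil, not_false_eq_true, and_true] at hnd
  obtain ⟨⟨n1, n2, n3, n4⟩, ⟨n5, n6, n7⟩, ⟨n8, n9⟩, n10⟩ := hnd
  set ph : V → ℝ := fun v => (if x ∉ T v ∧ a ∉ T v then 1 / 2 else 0) +
    (if x ∉ T v ∧ a' ∉ T v then 1 / 2 else 0) +
    (if y ∉ T v ∧ b ∉ T v then 2 else 0) + (if T v = {x, y} then 1 else 0) with hph
  have hinj : Function.Injective ![x, y, b, a, a'] := by
    intro i j hij
    fin_cases i <;> fin_cases j <;> simp_all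
  have hpt : ∀ v, (5 : ℝ) ≤ ((T v).card : ℝ) +
      (∑ i, if ![x, y, b, a, a'] i ∈ T v then
        (![2, 2, 2, 3 / 2, 3 / 2] : Fin 5 → ℝ) i - 1 else 0) + ph v := by
    intro v
    have hs : (∑ i, if ![x, y, b, a, a'] i ∈ T v then
        (![2, 2, 2, 3 / 2, 3 / 2] : Fin 5 → ℝ) i - 1 else 0) =
        (if x ∈ T v then 1 else 0) + (if y ∈ T v then 1 else 0) + (if b ∈ T v then 1 else 0) +
        (if a ∈ T v then 1 / 2 else 0) + (if a' ∈ T v then (1 / 2 : ℝ) else 0) := by
      rw [Fin.sum_univ_five]
      simp only [Matrix.cons_val_zero, Matrix.cons_val_one, Matrix.cons_val]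
      norm_num
    rw [hs]
    rcases Nat.lt_or_ge (T v).card 3 with h3 | h3
    · have h4 : (T v).card = 2 := le_antisymm (by omega) (hK.two v)
      have h5 : ((T v).card : ℝ) = 2 := by exact_mod_cast h4
      rw [h5]
      rcases h2 v h4 with ⟨e1, e4⟩ | h6
      · by_cases e2 : y ∈ T v
        · have h7 : T v = {x, y} := by
            refine (Finset.eq_of_subset_of_card_le ?_ ?_).symm
            · intro z hz
              simp only [Finset.mem_insert, Finset.mem_singleton] at hz
              rcases hz with rfl | rfl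
              · exact e1
              · exact e2
            · rw [h4, Finset.card_pair n1]
          have e3 : a ∉ T v := by rw [h7]; simp [Ne.symm n2, Ne.symm n5]
          have e3' : a' ∉ T v := by rw [h7]; simp [Ne.symm n3, Ne.symm n6]
          have e5 : (if T v = {x, y} then (1 : ℝ) else 0) = 1 := if_pos h7
          simp only [hph, e5, e1, e2, e3, e3', e4, if_true, if_false, not_true, false_and]
          norm_num
        · have e5 : (0 : ℝ) ≤ if T v = {x, y} then 1 else 0 := by split_ifs <;> norm_num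
          have e6 : (0 : ℝ) ≤ if a ∈ T v then 1 / 2 else 0 := by split_ifs <;> norm_num
          have e7 : (0 : ℝ) ≤ if a' ∈ T v then 1 / 2 else 0 := by split_ifs <;> norm_num
          simp only [hph, e1, e2, e4, if_true, if_false, not_true, not_false_eq_true, false_and,
            and_self]
          linarith
      · have e1 : x ∉ T v := by rw [h6]; simp [n1, n4]
        have e2 : y ∈ T v := by rw [h6]; simp
        have e3 : a ∉ T v := by rw [h6]; simp [Ne.symm n5, n9]
        have e3' : a' ∉ T v := by rw [h6]; simp [Ne.symm n6, n10]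
        have e4 : b ∈ T v := by rw [h6]; simp
        have e5 : (0 : ℝ) ≤ if T v = {x, y} then 1 else 0 := by split_ifs <;> norm_num
        simp only [hph, e1, e2, e3, e3', e4, if_true, if_false, not_true, not_false_eq_true,
           and_self]
        linarith
    · have h5 : (3 : ℝ) ≤ ((T v).card : ℝ) := by exact_mod_cast h3
      have e5 : (0 : ℝ) ≤ if T v = {x, y} then 1 else 0 := by split_ifs <;> norm_num
      simp only [hph]
      by_cases e1 : x ∈ T v <;> by_cases e2 : y ∈ T v <;> by_cases e3 : a ∈ T v <;>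
        by_cases e3' : a' ∈ T v <;> by_cases e4 : b ∈ T v <;>
        simp only [e1, e2, e3, e3', e4, if_true, if_false, not_true, not_false_eq_true, false_and,
          and_self, and_false] <;> linarith
  have h := hLPC M T hN hK.sub 5 ![x, y, b, a, a'] ![2, 2, 2, 3 / 2, 3 / 2] ph 5 hinj
    (by intro i; fin_cases i <;> simp <;> norm_num) hpt
  have hsum : (∑ v, ph v) / Fintype.card V ≤ 4 * c := by
    rw [div_le_iff₀ hNR]
    have e : ∑ v, ph v = 1 / 2 * ((univ.filter (fun w => x ∉ T w ∧ a ∉ T w)).card : ℝ) +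
        1 / 2 * ((univ.filter (fun w => x ∉ T w ∧ a' ∉ T w)).card : ℝ) +
        2 * ((univ.filter (fun w => y ∉ T w ∧ b ∉ T w)).card : ℝ) + (nx T x y : ℝ) := by
      simp only [hph, Finset.sum_add_distrib, nx]
      rw [← Finset.sum_boole, ← Finset.sum_boole, ← Finset.sum_boole, ← Finset.sum_boole,
        Finset.mul_sum, Finset.mul_sum, Finset.mul_sum]
      simp only [mul_ite, mul_one, mul_zero]
    rw [e]
    have g1 := D21_miss hK hxa
    have g1' := D21_miss hK hxa'
    have g2 := D21_miss hK hyb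
    have g3 := hL x y hxy.1
    linarith
  have hsq : 0 ≤ (∑ x_1 ∈ M.filter (fun z => ∀ i, z ≠ ![x, y, b, a, a'] i),
      pr T x_1 ^ 2) / 2 := by
    positivity
  have hlog := D21_log
  have h32 : Real.log (3 / 2) = Real.log 3 - Real.log 2 :=
    Real.log_div (by norm_num) (by norm_num)
  have hfin := hTG c (-1 - (Real.log 2 + 2 * Real.log 3)) 4 hK.cl hK.cu (by norm_num)
    (by linarith) (by linarith)
  unfold Bd
  refine le_trans h (le_trans ?_ hfin)
  apply Real.exp_le_exp.mpr
  have hl' : ∑ i : Fin 5, ((![2, 2, 2, 3 / 2, 3 / 2] : Fin 5 → ℝ) i - 1 -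
      Real.log ((![2, 2, 2, 3 / 2, 3 / 2] : Fin 5 → ℝ) i)) =
      4 - Real.log 2 - 2 * Real.log 3 := by
    rw [Fin.sum_univ_five]
    simp only [Matrix.cons_val_zero, Matrix.cons_val_one, Matrix.cons_val]
    rw [h32]
    ring
  rw [hl']
  linarith

end Pool.Agent.Work.MP_1ce445_s8
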