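import Pool.Agent.Work.MP_1ce445_s8.Interface

/-! # Theorem S7, block D22 (typed by helper73) -/

namespace Pool.Agent.Work.MP_1ce445_s8

open Finset Pool.Agent.Work.MP_1ce445_co_56 Pool.Agent.Work.MP_1ce445_lin

theorem D22_miss {V : Type} [Fintype V] {k : ℕ} {M : Finset (Fin k)} {T : V → Finset (Fin k)}
    {c : ℝ} (h : Kg M T c) (a b : Fin k) (hab : R T a b) :
    ∑ v, (if a ∉ T v ∧ b ∉ T v then (1 : ℝ) else 0) ≤ c * Fintype.card V := by
  classical
  obtain ⟨_, w, hw⟩ := hab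
  rw [Finset.sum_boole]
  refine le_trans ?_ (h.few w)
  have hsub : univ.filter (fun v => a ∉ T v ∧ b ∉ T v) ⊆ univ.filter (fun v => T w ∩ T v = ∅) := by
    intro v hv
    rw [Finset.mem_filter] at hv ⊢
    refine ⟨Finset.mem_univ _, ?_⟩
    rw [hw, Finset.eq_empty_iff_forall_notMem]
    intro j hj
    rw [Finset.mem_inter, Finset.mem_insert, Finset.mem_singleton] at hj
    rcases hj.1 with rfl | rfl
    · exact hv.2.1 hj.2
    · exact hv.2.2 hj.2
  exact_mod_cast Finset.card_le_card hsub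

theorem D22_nx {V : Type} [Fintype V] {k : ℕ} (T : V → Finset (Fin k)) (a b : Fin k) :
    ∑ v, (if T v = {a, b} then (1 : ℝ) else 0) = nx T a b := by
  rw [Finset.sum_boole]
  rfl

theorem D22_num : (29 / 10 : ℝ) ≤ 2 * Real.log (23 / 10) + 4 * Real.log (7 / 5) := by
  have h1 : Real.exp (29 / 10) ≤ (23 / 10) ^ 2 * (7 / 5) ^ 4 := by
    have h2 : Real.exp (29 / 10) ^ 10 = Real.exp 1 ^ 29 := by
      rw [← Real.exp_nat_mul, ← Real.exp_nat_mul]
      norm_num
    have h3 : Real.exp (29 / 10) ^ 10 ≤ ((23 / 10) ^ 2 * (7 / 5) ^ 4 : ℝ) ^ 10 := by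
      rw [h2]
      have h4 := Real.exp_one_lt_d9
      calc Real.exp 1 ^ 29 ≤ (2.7182818286 : ℝ) ^ 29 :=
            pow_le_pow_left₀ (Real.exp_pos 1).le h4.le 29
        _ ≤ _ := by norm_num
    exact le_of_pow_le_pow_left₀ (by norm_num) (by norm_num) h3
  have h5 : 2 * Real.log (23 / 10) + 4 * Real.log (7 / 5) =
      Real.log ((23 / 10) ^ 2 * (7 / 5) ^ 4) := by
    rw [Real.log_mul (by norm_num) (by norm_num), Real.log_pow, Real.log_pow]
    norm_num
  rw [h5, Real.le_log_iff_exp_le (by norm_num)]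
  exact h1

theorem D22_four {k : ℕ} (S : Finset (Fin k)) (p q r s : Fin k) (h : [p, q, r, s].Nodup)
    (hp : p ∈ S) (hq : q ∈ S) (hr : r ∈ S) (hs : s ∈ S) : (4 : ℝ) ≤ (S.card : ℝ) := by
  have h1 : ([p, q, r, s].toFinset).card = 4 := by
    rw [List.toFinset_card_of_nodup h]
    rfl
  have h2 : [p, q, r, s].toFinset ⊆ S := by
    intro j hj
    rw [List.mem_toFinset] at hj
    simp only [List.mem_cons, List.not_mem_nil, or_false] at hj
    rcases hj with rfl | rfl | rfl | rfl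
    · exact hp
    · exact hq
    · exact hr
    · exact hs
  have h3 := Finset.card_le_card h2
  rw [h1] at h3
  exact_mod_cast h3

/-- The inequality for the indicators. -/
theorem D22_ind (n X Y A A' B B' xa xa' yb yb' E : ℝ)
    (hX : X = 0 ∨ X = 1) (hY : Y = 0 ∨ Y = 1) (hA : A = 0 ∨ A = 1) (hA' : A' = 0 ∨ A' = 1)
    (hB : B = 0 ∨ B = 1) (hB' : B' = 0 ∨ B' = 1)
    (h1 : xa = (1 - X) * (1 - A)) (h2 : xa' = (1 - X) * (1 - A')) (h3 : yb = (1 - Y) * (1 - B))
    (h4 : yb' = (1 - Y) * (1 - B')) (hE : 0 ≤ E)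
    (hc : (n = 2 ∧ ((X = 1 ∧ B = 0 ∧ B' = 0) ∨ (Y = 1 ∧ A = 0 ∧ A' = 0)) ∧
      (X = 1 → Y = 1 → E = 1)) ∨ (3 ≤ n ∧ (A = 1 → A' = 1 → B = 1 → B' = 1 → 4 ≤ n))) :
    51 / 10 ≤ n + (13 / 10 * X + 13 / 10 * Y + 2 / 5 * A + 2 / 5 * A' + 2 / 5 * B + 2 / 5 * B') +
      (9 / 10 * (xa + xa' + yb + yb') + 1 / 2 * E) := by
  subst h1 h2 h3 h4
  rcases hc with ⟨hn, hs, hE1⟩ | ⟨hn, hf⟩
  · subst hn
    rcases hs with ⟨rfl, rfl, rfl⟩ | ⟨rfl, rfl, rfl⟩
    · rcases hY with rfl | rfl
      · rcases hA with rfl | rfl <;> rcases hA' with rfl | rfl <;> linarith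
      · have := hE1 rfl rfl
        rcases hA with rfl | rfl <;> rcases hA' with rfl | rfl <;> linarith
    · rcases hX with rfl | rfl
      · rcases hB with rfl | rfl <;> rcases hB' with rfl | rfl <;> linarith
      · have := hE1 rfl rfl
        rcases hB with rfl | rfl <;> rcases hB' with rfl | rfl <;> linarith
  · rcases hX with rfl | rfl <;> rcases hY with rfl | rfl <;> rcases hA with rfl | rfl <;>
      rcases hA' with rfl | rfl <;> rcases hB with rfl | rfl <;> rcases hB' with rfl | rfl <;>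
      first
        | linarith
        | (have := hf rfl rfl rfl rfl; linarith)

theorem D22_01 (p : Prop) [Decidable p] :
    (if p then (1 : ℝ) else 0) = 0 ∨ (if p then (1 : ℝ) else 0) = 1 := by
  by_cases h : p
  · right
    rw [if_pos h]
  · left
    rw [if_neg h]

theorem D22_and (p q : Prop) [Decidable p] [Decidable q] :
    (if ¬ p ∧ ¬ q then (1 : ℝ) else 0) =
      (1 - (if p then (1 : ℝ) else 0)) * (1 - (if q then (1 : ℝ) else 0)) := by
  by_cases hp : p <;> by_cases hq : q <;> simp [hp, hq]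

theorem D22_pt {k : ℕ} (S : Finset (Fin k)) (x y a a' b b' : Fin k)
    (hnd : [x, y, a, a', b, b'].Nodup) (h2 : 2 ≤ S.card)
    (hS : S.card = 2 → (x ∈ S ∧ b ∉ S ∧ b' ∉ S) ∨ (y ∈ S ∧ a ∉ S ∧ a' ∉ S)) :
    51 / 10 ≤ (S.card : ℝ) + (13 / 10 * (if x ∈ S then (1 : ℝ) else 0) +
      13 / 10 * (if y ∈ S then 1 else 0) + 2 / 5 * (if a ∈ S then 1 else 0) +
      2 / 5 * (if a' ∈ S then 1 else 0) + 2 / 5 * (if b ∈ S then 1 else 0) +
      2 / 5 * (if b' ∈ S then 1 else 0)) +
      (9 / 10 * ((if x ∉ S ∧ a ∉ S then 1 else 0) + (if x ∉ S ∧ a' ∉ S then 1 else 0) +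
        (if y ∉ S ∧ b ∉ S then 1 else 0) + (if y ∉ S ∧ b' ∉ S then 1 else 0)) +
        1 / 2 * (if S = {x, y} then 1 else 0)) := by
  classical
  have hxy : x ≠ y := by
    intro h
    subst h
    simp at hnd
  have h4nd : [a, a', b, b'].Nodup := by
    have : [x, y, a, a', b, b'].Sublist [x, y, a, a', b, b'] := List.Sublist.refl _
    exact (List.nodup_cons.1 (List.nodup_cons.1 hnd).2).2
  refine D22_ind _ _ _ _ _ _ _ _ _ _ _ _ (D22_01 _) (D22_01 _) (D22_01 _) (D22_01 _) (D22_01 _)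
    (D22_01 _) (D22_and _ _) (D22_and _ _) (D22_and _ _) (D22_and _ _)
    (by split_ifs <;> norm_num) ?_
  by_cases hc : S.card = 2
  · left
    refine ⟨by exact_mod_cast hc, ?_, ?_⟩
    · rcases hS hc with ⟨h1, h3, h4⟩ | ⟨h1, h3, h4⟩
      · left
        exact ⟨if_pos h1, if_neg h3, if_neg h4⟩
      · right
        exact ⟨if_pos h1, if_neg h3, if_neg h4⟩
    · intro h1 h3
      have hx : x ∈ S := by
        by_contra h
        rw [if_neg h] at h1
        exact zero_ne_one h1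
      have hy : y ∈ S := by
        by_contra h
        rw [if_neg h] at h3
        exact zero_ne_one h3
      apply if_pos
      symm
      apply Finset.eq_of_subset_of_card_le
      · intro j hj
        rw [Finset.mem_insert, Finset.mem_singleton] at hj
        rcases hj with rfl | rfl
        · exact hx
        · exact hy
      · rw [hc, Finset.card_pair hxy]
  · right
    refine ⟨?_, fun h1 h3 h4 h5 => ?_⟩
    · have : 3 ≤ S.card := by omega
      exact_mod_cast this
    · have key : ∀ j : Fin k, (if j ∈ S then (1 : ℝ) else 0) = 1 → j ∈ S := by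
        intro j hj
        by_contra h
        rw [if_neg h] at hj
        exact zero_ne_one hj
      exact D22_four S a a' b b' h4nd (key _ h1) (key _ h3) (key _ h4) (key _ h5)

/-- Block D22. -/
theorem stmt_D22 (h1 : Stmt_TG) (h2 : Stmt_LPC) : Stmt_D22 := by
  intro V _ k M T c hK hL x y a a' b b' hnd hxy hxa hxa' hyb hyb' hsub
  classical
  have hN : (0 : ℝ) < Fintype.card V := by exact_mod_cast hK.pos
  have hp : Function.Injective (![x, y, a, a', b, b'] : Fin 6 → Fin k) := by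
    have h3 : (![x, y, a, a', b, b'] : Fin 6 → Fin k) = fun i => [x, y, a, a', b, b'].get i := by
      funext i
      fin_cases i <;> rfl
    rw [h3]
    exact List.nodup_iff_injective_get.1 hnd
  have hmain := h2 M T hK.pos hK.sub 6 ![x, y, a, a', b, b']
    ![23 / 10, 23 / 10, 7 / 5, 7 / 5, 7 / 5, 7 / 5]
    (fun v => 9 / 10 * ((if x ∉ T v ∧ a ∉ T v then 1 else 0) +
      (if x ∉ T v ∧ a' ∉ T v then 1 else 0) + (if y ∉ T v ∧ b ∉ T v then 1 else 0) +
      (if y ∉ T v ∧ b' ∉ T v then 1 else 0)) + 1 / 2 * (if T v = {x, y} then 1 else 0))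
    (51 / 10) hp (by
      intro i
      fin_cases i <;> norm_num [Matrix.cons_val_zero, Matrix.cons_val_one]) (by
      intro v
      have h3 := D22_pt (T v) x y a a' b b' hnd (hK.two v) (hsub v)
      have e : ∀ j : Fin k, (if j ∈ T v then (23 / 10 : ℝ) - 1 else 0) =
          13 / 10 * (if j ∈ T v then 1 else 0) := by
        intro j
        by_cases h : j ∈ T v
        · rw [if_pos h, if_pos h]
          norm_num
        · rw [if_neg h, if_neg h, mul_zero]
      have e' : ∀ j : Fin k, (if j ∈ T v then (7 / 5 : ℝ) - 1 else 0) =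
          2 / 5 * (if j ∈ T v then 1 else 0) := by
        intro j
        by_cases h : j ∈ T v
        · rw [if_pos h, if_pos h]
          norm_num
        · rw [if_neg h, if_neg h, mul_zero]
      rw [Fin.sum_univ_six]
      change (51 / 10 : ℝ) ≤ ((T v).card : ℝ) + ((if x ∈ T v then (23 / 10 : ℝ) - 1 else 0) +
        (if y ∈ T v then (23 / 10 : ℝ) - 1 else 0) + (if a ∈ T v then (7 / 5 : ℝ) - 1 else 0) +
        (if a' ∈ T v then (7 / 5 : ℝ) - 1 else 0) + (if b ∈ T v then (7 / 5 : ℝ) - 1 else 0) +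
        (if b' ∈ T v then (7 / 5 : ℝ) - 1 else 0)) + _
      rw [e, e, e', e', e', e']
      exact h3)
  unfold Bd
  refine hmain.trans ?_
  have h4 : (∑ v, (9 / 10 * ((if x ∉ T v ∧ a ∉ T v then (1 : ℝ) else 0) +
      (if x ∉ T v ∧ a' ∉ T v then 1 else 0) + (if y ∉ T v ∧ b ∉ T v then 1 else 0) +
      (if y ∉ T v ∧ b' ∉ T v then 1 else 0)) + 1 / 2 * (if T v = {x, y} then 1 else 0))) /
      Fintype.card V ≤ 41 / 10 * c := by
    rw [div_le_iff₀ hN, Finset.sum_add_distrib, ← Finset.mul_sum, ← Finset.mul_sum, D22_nx,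
      Finset.sum_add_distrib, Finset.sum_add_distrib, Finset.sum_add_distrib]
    have m1 := D22_miss hK.toKg x a hxa
    have m2 := D22_miss hK.toKg x a' hxa'
    have m3 := D22_miss hK.toKg y b hyb
    have m4 := D22_miss hK.toKg y b' hyb'
    have m5 := hL x y hxy.1
    linarith
  have h6 : 0 ≤ ∑ j ∈ M.filter (fun j => ∀ i, j ≠ (![x, y, a, a', b, b'] : Fin 6 → Fin k) i),
      pr T j ^ 2 := Finset.sum_nonneg fun j _ => sq_nonneg _
  have h7 := D22_num
  have h8 := h1 c (-(19 / 5)) (41 / 10) hK.cl hK.cu (by norm_num) (by norm_num) (by norm_num)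
  refine le_trans (Real.exp_le_exp.2 ?_) h8
  rw [Fin.sum_univ_six]
  simp only [Matrix.cons_val_zero, Matrix.cons_val_one, Matrix.cons_val]
  linarith

end Pool.Agent.Work.MP_1ce445_s8
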