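import Pool.Agent.Work.MP_1ce445_s8.Interface

namespace Pool.Agent.Work.MP_1ce445_s8

open Finset Pool.Agent.Work.MP_1ce445_co_56 Pool.Agent.Work.MP_1ce445_lin

theorem DBL_pair {V : Type} {k : ℕ} {T : V → Finset (Fin k)} {v : V} (h2 : (T v).card = 2)
    {x : Fin k} (hx : x ∈ T v) : ∃ j, R T x j ∧ T v = {x, j} := by
  obtain ⟨p, q, hpq, hT⟩ := Finset.card_eq_two.1 h2
  rw [hT, mem_insert, mem_singleton] at hx
  rcases hx with rfl | rfl
  · exact ⟨q, ⟨hpq, v, hT⟩, hT⟩
  · exact ⟨p, ⟨fun h => hpq h.symm, v, by rw [hT, pair_comm]⟩, by rw [hT, pair_comm]⟩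

theorem DBL_symm {V : Type} {k : ℕ} {T : V → Finset (Fin k)} {x y : Fin k} (h : R T x y) :
    R T y x := by
  obtain ⟨h1, v, hv⟩ := h
  exact ⟨fun h => h1 h.symm, v, by rw [hv, pair_comm]⟩

/-- the 2-sets with `x` which avoid a present pair `y b` are few -/
theorem DBL_few {V : Type} [Fintype V] {k : ℕ} {M : Finset (Fin k)} {T : V → Finset (Fin k)}
    {c : ℝ} (hK : Kf M T c) {x y b : Fin k} (hxy : x ≠ y) (hxb : x ≠ b) (h : R T y b)
    (h1 : ¬ R T x y) (h2 : ¬ R T x b) :
    ((univ.filter (fun v => (T v).card = 2 ∧ x ∈ T v)).card : ℝ) ≤ c * Fintype.card V := by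
  obtain ⟨_, v0, hv0⟩ := h
  refine le_trans ?_ (hK.few v0)
  have : (univ.filter (fun v => (T v).card = 2 ∧ x ∈ T v)) ⊆
      (univ.filter (fun w => T v0 ∩ T w = ∅)) := by
    intro w hw
    rw [mem_filter] at hw ⊢
    refine ⟨mem_univ _, ?_⟩
    obtain ⟨j, hj, hT⟩ := DBL_pair hw.2.1 hw.2.2
    have hjy : j ≠ y := fun h => h1 (h ▸ hj)
    have hjb : j ≠ b := fun h => h2 (h ▸ hj)
    rw [hv0, hT, Finset.eq_empty_iff_forall_notMem]
    intro z hz
    rw [mem_inter, mem_insert, mem_singleton, mem_insert, mem_singleton] at hz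
    obtain ⟨hz1, hz2⟩ := hz
    rcases hz1 with rfl | rfl <;> rcases hz2 with hz2 | hz2
    · exact hxy hz2.symm
    · exact hjy hz2.symm
    · exact hxb hz2.symm
    · exact hjb hz2.symm
  exact_mod_cast Finset.card_le_card this

theorem stmt_DBL (hTHR : Stmt_THR) (_hC4 : Stmt_C4) (hD11 : Stmt_D11) (hD21 : Stmt_D21)
    (hD22 : Stmt_D22) (hDW : Stmt_DW) : Stmt_DBL := by
  classical
  intro V _ k M T c hK hL x y a b hnd hxa hya hyb hxb hall
  simp only [List.nodup_cons, List.mem_cons, List.not_mem_nil, or_false, not_or,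
    List.nodup_nil, and_true, not_false_eq_true] at hnd
  obtain ⟨⟨nxy, nxa, nxb⟩, ⟨nya, nyb⟩, nab⟩ := hnd
  -- a 2-set with `x` does not contain `b`, and so on
  have Hx : ∀ z : Fin k, z ≠ x → ¬ R T x z → ∀ v, (T v).card = 2 → x ∈ T v → z ∉ T v := by
    intro z hzx hz v h2 hx hzv
    obtain ⟨j, hj, hT⟩ := DBL_pair h2 hx
    rw [hT, mem_insert, mem_singleton] at hzv
    rcases hzv with h | h
    · exact hzx h
    · exact hz (h ▸ hj)
  have Hy : ∀ z : Fin k, z ≠ y → ¬ R T y z → ∀ v, (T v).card = 2 → y ∈ T v → z ∉ T v := by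
    intro z hzx hz v h2 hx hzv
    obtain ⟨j, hj, hT⟩ := DBL_pair h2 hx
    rw [hT, mem_insert, mem_singleton] at hzv
    rcases hzv with h | h
    · exact hzx h
    · exact hz (h ▸ hj)
  by_cases hxy : R T x y
  · by_cases hw : ∃ w, R T x w ∧ R T y w
    · obtain ⟨w, hxw, hyw⟩ := hw
      have nwx : x ≠ w := hxw.1
      have nwy : y ≠ w := hyw.1
      have nwa : a ≠ w := by rintro rfl; exact hya hyw
      have nwb : b ≠ w := by rintro rfl; exact hxb hxw
      refine hDW M T c hK hL x y a b w ?_ hxy hxa hyb hxw hyw ?_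
      · simp [nxy, nxa, nxb, nya, nyb, nab, nwx, nwy, nwa, nwb]
      · intro v h2
        rcases hall v h2 with h | h
        · exact Or.inl ⟨h, Hx b (Ne.symm nxb) hxb v h2 h⟩
        · exact Or.inr ⟨h, Hy a (Ne.symm nya) hya v h2 h⟩
    · push Not at hw
      by_cases hr : ∃ a', R T x a' ∧ a' ≠ y ∧ a' ≠ a
      · obtain ⟨a', hxa', na'y, na'a⟩ := hr
        have nxa' : x ≠ a' := hxa'.1
        have hya' : ¬ R T y a' := hw a' hxa'
        have na'b : a' ≠ b := by rintro rfl; exact hxb hxa'
        by_cases hs : ∃ b', R T y b' ∧ b' ≠ x ∧ b' ≠ b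
        · obtain ⟨b', hyb', nb'x, nb'b⟩ := hs
          have nyb' : y ≠ b' := hyb'.1
          have hxb' : ¬ R T x b' := fun h => hw b' h hyb'
          have nb'a : a ≠ b' := by rintro rfl; exact hya hyb'
          have nb'a' : a' ≠ b' := by rintro rfl; exact hya' hyb'
          refine hD22 M T c hK hL x y a a' b b' ?_ hxy hxa hxa' hyb hyb' ?_
          · simp [nxy, nxa, nxb, nya, nyb, nab, nxa', Ne.symm na'y, Ne.symm na'a, na'b,
              Ne.symm nb'x, nyb', nb'a, nb'a', Ne.symm nb'b]
          · intro v h2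
            rcases hall v h2 with h | h
            · exact Or.inl ⟨h, Hx b (Ne.symm nxb) hxb v h2 h, Hx b' nb'x hxb' v h2 h⟩
            · exact Or.inr ⟨h, Hy a (Ne.symm nya) hya v h2 h, Hy a' na'y hya' v h2 h⟩
        · push Not at hs
          refine hD21 M T c hK hL x y a a' b ?_ hxy hxa hxa' hyb ?_
          · simp [nxy, nxa, nxb, nya, nyb, nab, nxa', Ne.symm na'y, Ne.symm na'a, na'b]
          · intro v h2
            by_cases hxv : x ∈ T v
            · exact Or.inl ⟨hxv, Hx b (Ne.symm nxb) hxb v h2 hxv⟩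
            · right
              have hyv : y ∈ T v := (hall v h2).resolve_left hxv
              obtain ⟨j, hj, hT⟩ := DBL_pair h2 hyv
              have hjx : j ≠ x := by
                rintro rfl
                exact hxv (by rw [hT]; simp)
              rw [hT, hs j hj hjx]
      · push Not at hr
        by_cases hs : ∃ b', R T y b' ∧ b' ≠ x ∧ b' ≠ b
        · obtain ⟨b', hyb', nb'x, nb'b⟩ := hs
          have nyb' : y ≠ b' := hyb'.1
          have nb'a : a ≠ b' := by rintro rfl; exact hya hyb'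
          refine hD21 M T c hK hL y x b b' a ?_ (DBL_symm hxy) hyb hyb' hxa ?_
          · simp [Ne.symm nxy, nxa, nxb, nya, nyb, Ne.symm nab, Ne.symm nb'x, nyb',
              Ne.symm nb'a, Ne.symm nb'b]
          · intro v h2
            by_cases hyv : y ∈ T v
            · exact Or.inl ⟨hyv, Hy a (Ne.symm nya) hya v h2 hyv⟩
            · right
              have hxv : x ∈ T v := (hall v h2).resolve_right hyv
              obtain ⟨j, hj, hT⟩ := DBL_pair h2 hxv
              have hjy : j ≠ y := by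
                rintro rfl
                exact hyv (by rw [hT]; simp)
              rw [hT, hr j hj hjy]
        · push Not at hs
          refine hD11 M T c hK hL x y a b ?_ hxy hxa hyb ?_
          · simp [nxy, nxa, nxb, nya, nyb, nab]
          · intro v h2
            by_cases hxv : x ∈ T v
            · obtain ⟨j, hj, hT⟩ := DBL_pair h2 hxv
              by_cases hjy : j = y
              · left; rw [hT, hjy]
              · right; left; rw [hT, hr j hj hjy]
            · right; right
              have hyv : y ∈ T v := (hall v h2).resolve_left hxv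
              obtain ⟨j, hj, hT⟩ := DBL_pair h2 hyv
              have hjx : j ≠ x := by
                rintro rfl
                exact hxv (by rw [hT]; simp)
              rw [hT, hs j hj hjx]
  · -- `x y` absent
    refine hTHR M T c hK ?_
    have h1 := DBL_few hK nxy nxb hyb hxy hxb
    have h2 := DBL_few hK (Ne.symm nxy) nya hxa (fun h => hxy (DBL_symm h)) hya
    have h3 : (univ.filter (fun v => (T v).card = 2)) ⊆
        (univ.filter (fun v => (T v).card = 2 ∧ x ∈ T v)) ∪
          (univ.filter (fun v => (T v).card = 2 ∧ y ∈ T v)) := by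
      intro v hv
      rw [mem_filter] at hv
      rw [mem_union, mem_filter, mem_filter]
      rcases hall v hv.2 with h | h
      · exact Or.inl ⟨mem_univ _, hv.2, h⟩
      · exact Or.inr ⟨mem_univ _, hv.2, h⟩
    have h4 := (Finset.card_le_card h3).trans (Finset.card_union_le _ _)
    have h5 : (n2 T : ℝ) ≤ ((univ.filter (fun v => (T v).card = 2 ∧ x ∈ T v)).card : ℝ) +
        ((univ.filter (fun v => (T v).card = 2 ∧ y ∈ T v)).card : ℝ) := by
      unfold n2
      exact_mod_cast h4
    linarith

end Pool.Agent.Work.MP_1ce445_s8
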