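import Pool.Agent.Work.MP_1ce445_s8.Interface

namespace Pool.Agent.Work.MP_1ce445_s8

open Finset Pool.Agent.Work.MP_1ce445_co_56 Pool.Agent.Work.MP_1ce445_lin

theorem HCA_two {k : ℕ} {S : Finset (Fin k)} {a b : Fin k} (hS : S.card = 2) (ha : a ∈ S)
    (hb : b ∈ S) (hab : a ≠ b) : S = {a, b} := by
  symm
  apply Finset.eq_of_subset_of_card_le
  · intro t ht
    simp only [Finset.mem_insert, Finset.mem_singleton] at ht
    rcases ht with rfl | rfl <;> assumption
  · rw [hS, Finset.card_pair hab]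

theorem HCA_meet {V : Type} [Fintype V] {k : ℕ} {M : Finset (Fin k)} {T : V → Finset (Fin k)}
    {c : ℝ} (h : Kf M T c) {a b : Fin k} (hh : c * Fintype.card V < nx T a b) (w : V) :
    a ∈ T w ∨ b ∈ T w := by
  by_contra hc
  push Not at hc
  have h1 := h.few w
  have h2 : nx T a b ≤ (univ.filter (fun v => T w ∩ T v = ∅)).card := by
    unfold nx
    apply Finset.card_le_card
    intro v hv
    simp only [Finset.mem_filter, Finset.mem_univ, true_and] at hv ⊢
    rw [hv]
    ext t
    simp only [Finset.mem_inter, Finset.mem_insert, Finset.mem_singleton, Finset.notMem_empty,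
      iff_false, not_and, not_or]
    intro ht
    exact ⟨fun e => hc.1 (e ▸ ht), fun e => hc.2 (e ▸ ht)⟩
  have h3 : (nx T a b : ℝ) ≤ ((univ.filter (fun v => T w ∩ T v = ∅)).card : ℝ) := by
    exact_mod_cast h2
  linarith

theorem HCA_nx {V : Type} [Fintype V] {k : ℕ} {M : Finset (Fin k)} {T : V → Finset (Fin k)}
    {c : ℝ} (h : Kf M T c) {x y z : Fin k} (hR : R T y z) (hxz : x ≠ z) :
    pw T x y * Fintype.card V ≤ nx T x z + c * Fintype.card V := by
  obtain ⟨hyz, v0, hv0⟩ := hR
  have hN : (0 : ℝ) < Fintype.card V := by exact_mod_cast h.pos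
  have h1 := h.few v0
  have e : pw T x y * Fintype.card V =
      ((univ.filter (fun v => (T v).card = 2 ∧ x ∈ T v ∧ y ∉ T v)).card : ℝ) := by
    unfold pw
    field_simp
  rw [e]
  have h2 : (univ.filter (fun v => (T v).card = 2 ∧ x ∈ T v ∧ y ∉ T v)).card ≤
      nx T x z + (univ.filter (fun v => T v0 ∩ T v = ∅)).card := by
    classical
    unfold nx
    rw [← Finset.card_union_add_card_inter]
    refine le_trans (Finset.card_le_card ?_) (Nat.le_add_right _ _)
    intro v hv
    simp only [Finset.mem_filter, Finset.mem_univ, true_and, Finset.mem_union] at hv ⊢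
    by_cases hz : z ∈ T v
    · left
      exact HCA_two hv.1 hv.2.1 hz hxz
    · right
      rw [hv0]
      ext t
      simp only [Finset.mem_inter, Finset.mem_insert, Finset.mem_singleton, Finset.notMem_empty,
        iff_false, not_and]
      rintro (rfl | rfl)
      · exact hv.2.2
      · exact hz
  have h3 : ((univ.filter (fun v => (T v).card = 2 ∧ x ∈ T v ∧ y ∉ T v)).card : ℝ) ≤
      (nx T x z : ℝ) + ((univ.filter (fun v => T v0 ∩ T v = ∅)).card : ℝ) := by
    exact_mod_cast h2
  linarith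

theorem HCA_R {V : Type} [Fintype V] {k : ℕ} {T : V → Finset (Fin k)} {a b : Fin k}
    (hab : a ≠ b) (hp : (0 : ℝ) < nx T a b) : R T a b := by
  refine ⟨hab, ?_⟩
  have h1 : 0 < nx T a b := by exact_mod_cast hp
  unfold nx at h1
  obtain ⟨v, hv⟩ := Finset.card_pos.1 h1
  exact ⟨v, (Finset.mem_filter.1 hv).2⟩

theorem HCA_aux (h1 : Stmt_C4) (h2 : Stmt_THL) (h3 : Stmt_THH) (h4 : Stmt_PWH) (h5 : Stmt_HV)
    {V : Type} [Fintype V] {k : ℕ} (M : Finset (Fin k)) (T : V → Finset (Fin k)) (c : ℝ)
    (h : Kf M T c) (x y : Fin k) (hxy : x ≠ y) (hh : c * Fintype.card V < nx T x y)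
    (hle : pw T y x ≤ pw T x y) : Bd M T c := by
  have hN : (0 : ℝ) < Fintype.card V := by exact_mod_cast h.pos
  have hc : 0 < c := lt_of_lt_of_le (by norm_num) h.cl
  by_cases hv : pw T x y + pw T y x ≤ 3 * c ∨ pw T x y = 0 ∨ pw T y x = 0
  · exact h5 M T c h x y hxy hh hv
  push Not at hv
  obtain ⟨hs, hx0, hy0⟩ := hv
  have hyp : 0 < pw T y x := by
    refine lt_of_le_of_ne ?_ (Ne.symm hy0)
    unfold pw
    positivity
  have hxc : c < pw T x y := by linarith
  -- the equations for the masses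
  have ey : pw T y x * Fintype.card V =
      ((univ.filter (fun v => (T v).card = 2 ∧ y ∈ T v ∧ x ∉ T v)).card : ℝ) := by
    unfold pw
    field_simp
  have ex : pw T x y * Fintype.card V =
      ((univ.filter (fun v => (T v).card = 2 ∧ x ∈ T v ∧ y ∉ T v)).card : ℝ) := by
    unfold pw
    field_simp
  -- a neighbour `z` of `y`
  have hex : ∃ v, (T v).card = 2 ∧ y ∈ T v ∧ x ∉ T v := by
    have h6 : (0 : ℝ) < ((univ.filter (fun v => (T v).card = 2 ∧ y ∈ T v ∧ x ∉ T v)).card : ℝ) := by
      rw [← ey]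
      positivity
    have h7 : 0 < (univ.filter (fun v => (T v).card = 2 ∧ y ∈ T v ∧ x ∉ T v)).card := by
      exact_mod_cast h6
    obtain ⟨v, hv⟩ := Finset.card_pos.1 h7
    exact ⟨v, (Finset.mem_filter.1 hv).2⟩
  obtain ⟨v0, hc0, hy0', hx0'⟩ := hex
  obtain ⟨z, hz, hzy⟩ : ∃ z ∈ T v0, z ≠ y :=
    Finset.exists_mem_ne (by rw [hc0]; norm_num) y
  have hzx : x ≠ z := fun e => hx0' (e ▸ hz)
  have hT0 : T v0 = {y, z} := HCA_two hc0 hy0' hz (Ne.symm hzy)
  have hRyz : R T y z := ⟨Ne.symm hzy, v0, hT0⟩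
  have key : ∀ z' : Fin k, R T y z' → x ≠ z' → (pw T x y - c) * Fintype.card V ≤ nx T x z' := by
    intro z' hR' hne
    have h8 := HCA_nx h hR' hne
    linarith
  have hpos : 0 < (pw T x y - c) * Fintype.card V := mul_pos (by linarith) hN
  have hRxz : R T x z := HCA_R hzx (lt_of_lt_of_le hpos (key z hRyz hzx))
  by_cases hz' : ∃ z', R T y z' ∧ x ≠ z' ∧ z' ≠ z
  · obtain ⟨z', hR', hne, hzz⟩ := hz'
    have hRxz' : R T x z' := HCA_R hne (lt_of_lt_of_le hpos (key z' hR' hne))
    refine h1 M T c h x y z z' ?_ hRxz hRxz' hRyz hR'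
    simp only [List.nodup_cons, List.mem_cons, List.not_mem_nil, or_false, not_or,
      not_false_eq_true, List.nodup_nil, and_true]
    exact ⟨⟨hxy, hzx, hne⟩, ⟨Ne.symm hzy, hR'.1⟩, Ne.symm hzz⟩
  push Not at hz'
  -- the 2-sets without `x`
  have hB : ∀ v, (T v).card = 2 → x ∉ T v → T v = {y, z} := by
    intro v hv2 hvx
    have hy : y ∈ T v := (HCA_meet h hh v).resolve_left hvx
    obtain ⟨u, hu, huy⟩ : ∃ u ∈ T v, u ≠ y :=
      Finset.exists_mem_ne (by rw [hv2]; norm_num) y
    have hTv : T v = {y, u} := HCA_two hv2 hy hu (Ne.symm huy)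
    have hux : x ≠ u := fun e => hvx (e ▸ hu)
    have := hz' u ⟨Ne.symm huy, v, hTv⟩ hux
    rw [hTv, this]
  have hyx : (nx T y z : ℝ) = pw T y x * Fintype.card V := by
    rw [ey]
    unfold nx
    congr 2
    ext v
    simp only [Finset.mem_filter, Finset.mem_univ, true_and]
    constructor
    · intro hv
      rw [hv]
      refine ⟨Finset.card_pair (Ne.symm hzy), by simp, ?_⟩
      simp only [Finset.mem_insert, Finset.mem_singleton, not_or]
      exact ⟨hxy, hzx⟩
    · rintro ⟨a1, a2, a3⟩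
      exact hB v a1 a3
  rcases le_or_gt (pw T y x) c with hcase | hcase
  · -- `y z` is not heavy
    have hxz : c * Fintype.card V < nx T x z := by
      refine lt_of_lt_of_le ?_ (key z hRyz hzx)
      exact mul_lt_mul_of_pos_right (by linarith) hN
    have hyzl : (nx T y z : ℝ) ≤ c * Fintype.card V := by
      rw [hyx]
      exact mul_le_mul_of_nonneg_right hcase hN.le
    by_cases hw : ∃ w, R T x w ∧ w ≠ y ∧ w ≠ z
    · obtain ⟨w, hRw, hwy, hwz⟩ := hw
      refine h4 M T c h x y z w ?_ hh hxz hRyz hyzl hRw ?_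
      · simp only [List.nodup_cons, List.mem_cons, List.not_mem_nil, or_false, not_or,
          not_false_eq_true, List.nodup_nil, and_true]
        exact ⟨⟨hxy, hzx, hRw.1⟩, ⟨Ne.symm hzy, Ne.symm hwy⟩, Ne.symm hwz⟩
      · intro v hv2
        by_cases hvx : x ∈ T v
        · exact Or.inl hvx
        · exact Or.inr (hB v hv2 hvx)
    · push Not at hw
      refine h2 M T c h x y z hxy hzx hh hxz hRyz hyzl ?_
      intro v hv2
      by_cases hvx : x ∈ T v
      · obtain ⟨u, hu, hux⟩ : ∃ u ∈ T v, u ≠ x :=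
          Finset.exists_mem_ne (by rw [hv2]; norm_num) x
        have hTv : T v = {x, u} := HCA_two hv2 hvx hu (Ne.symm hux)
        have huz : u = y ∨ u = z := by
          by_cases hy : u = y
          · exact Or.inl hy
          · exact Or.inr (hw u ⟨Ne.symm hux, v, hTv⟩ hy)
        rw [hTv]
        intro t ht
        simp only [Finset.mem_insert, Finset.mem_singleton] at ht ⊢
        rcases ht with rfl | rfl
        · exact Or.inl rfl
        · exact Or.inr huz
      · rw [hB v hv2 hvx]
        intro t ht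
        simp only [Finset.mem_insert, Finset.mem_singleton] at ht ⊢
        exact Or.inr ht
  · -- `y z` is heavy
    have hyzh : c * Fintype.card V < nx T y z := by
      rw [hyx]
      exact mul_lt_mul_of_pos_right hcase hN
    have hxz : (nx T x z : ℝ) = pw T x y * Fintype.card V := by
      rw [ex]
      unfold nx
      congr 2
      ext v
      simp only [Finset.mem_filter, Finset.mem_univ, true_and]
      constructor
      · intro hv
        rw [hv]
        refine ⟨Finset.card_pair hzx, by simp, ?_⟩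
        simp only [Finset.mem_insert, Finset.mem_singleton, not_or]
        exact ⟨Ne.symm hxy, Ne.symm hzy⟩
      · rintro ⟨a1, a2, a3⟩
        exact HCA_two a1 a2 ((HCA_meet h hyzh v).resolve_left a3) hzx
    refine h3 M T c h x y z hxy hzx (Ne.symm hzy) hh ?_ hyzh
    rw [hxz]
    exact mul_lt_mul_of_pos_right hxc hN

theorem stmt_HCA (h1 : Stmt_C4) (h2 : Stmt_THL) (h3 : Stmt_THH) (h4 : Stmt_PWH)
    (h5 : Stmt_HV) : Stmt_HCA := by
  intro V _ k M T c h x y hxy hh
  rcases le_total (pw T y x) (pw T x y) with hle | hle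
  · exact HCA_aux h1 h2 h3 h4 h5 M T c h x y hxy hh hle
  · refine HCA_aux h1 h2 h3 h4 h5 M T c h y x (Ne.symm hxy) ?_ hle
    have e : nx T y x = nx T x y := by
      unfold nx
      simp only [Finset.pair_comm y x]
    rw [e]
    exact hh

end Pool.Agent.Work.MP_1ce445_s8
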