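import Pool.Agent.Work.MP_1ce445_s8.TG

namespace Pool.Agent.Work.MP_1ce445_s8

open Finset Pool.Agent.Work.MP_1ce445_co_56 Pool.Agent.Work.MP_1ce445_lin

/-- tangent of the logarithm -/
lemma HVR_tan (t r : ℝ) (ht : 0 < t) (hr : 0 < r) : Real.log t ≤ Real.log r + t / r - 1 := by
  have h := Real.log_le_sub_one_of_pos (div_pos ht hr)
  rw [Real.log_div ht.ne' hr.ne'] at h
  linarith

/-- second case -/
lemma HVR_two (c b g S S2 : ℝ) (hc1 : 301 / 2500 ≤ c) (hc2 : c ≤ 17 / 100) (hb : 0 < b) (hg : 0 < g)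
    (hbg : b + g ≤ 1) (h1 : 4 * b * (g - c) ≤ S2) (h2 : 2 * b + g ≤ S) :
    Real.log b + Real.log g - (8883 / 10000 * S + 1943 / 2000 * S2) ≤
      (-(3315 / 1000) - 301 / 2500 * (1943 / 500)) + 1943 / 500 * c := by
  obtain ⟨K, hK⟩ : ∃ K : ℝ, K = 8883 / 10000 + 1943 / 500 * b := ⟨_, rfl⟩
  have hKp : 0 < K := by rw [hK]; positivity
  have e1 : Real.log g ≤ K * g - 1 - Real.log K := by
    have h := Real.log_le_sub_one_of_pos (mul_pos hKp hg)
    rw [Real.log_mul hKp.ne' hg.ne'] at h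
    linarith
  have e2 : Real.log (b / K) ≤ Real.log (15 / 100) + b / K / (15 / 100) - 1 :=
    HVR_tan _ _ (div_pos hb hKp) (by norm_num)
  have e3 : Real.log (15 / 100) ≤ -(18971 / 10000) := by
    rw [Real.log_le_iff_le_exp (by norm_num)]
    have h := Real.exp_one_lt_d9
    have h0 : Real.exp (-(18971 / 10000)) = (Real.exp (18971 / 10000))⁻¹ := Real.exp_neg _
    rw [h0]
    have h3 : Real.exp (18971 / 10000) ≤ 20 / 3 := by
      have h4 : Real.exp (18971 / 10000) = Real.exp 1 ^ 2 * Real.exp (-(1029 / 10000)) := by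
        rw [← Real.exp_nat_mul, ← Real.exp_add]
        norm_num
      have h5 : Real.exp (-(1029 / 10000 : ℝ)) ≤ 9022240 / 10000000 := by
        have h6 := Real.exp_bound (x := -(1029 / 10000 : ℝ)) (by rw [abs_neg, abs_of_pos] <;> norm_num)
          (n := 4) (by norm_num)
        have h7 := (abs_le.mp h6).2
        norm_num [Finset.sum_range_succ, Nat.factorial, abs_of_pos] at h7
        linarith
      rw [h4]
      have h8 : Real.exp 1 ^ 2 ≤ 2.7182818286 ^ 2 := by
        have := Real.exp_pos 1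
        nlinarith
      have h9 : 0 < Real.exp (-(1029 / 10000 : ℝ)) := Real.exp_pos _
      nlinarith [sq_nonneg (Real.exp 1)]
    have hp := Real.exp_pos (18971 / 10000 : ℝ)
    rw [le_inv_comm₀ (by norm_num) hp]
    norm_num
    linarith
  have e4 : b / K / (15 / 100) ≤ 5821 / 10000 + 13087 / 10000 * b := by
    rw [div_div, div_le_iff₀ (by positivity)]
    rw [hK]
    nlinarith [sq_nonneg (b - 3188 / 10000)]
  rw [Real.log_div hb.ne' hKp.ne'] at e2
  have e5 : K * g = 8883 / 10000 * g + 1943 / 500 * b * g := by rw [hK]; ring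
  nlinarith [mul_nonneg (show (0 : ℝ) ≤ 1 - b by linarith) (sub_nonneg.2 hc1)]

/-- first case -/
lemma HVR_one (c b g S S2 : ℝ) (hc1 : 301 / 2500 ≤ c) (hc2 : c ≤ 17 / 100) (hb : 0 < b) (hg : 0 < g)
    (hbg : b + g ≤ 1) (h1 : 4 * b * (g - c) ≤ S2) (h1' : 4 * g * (b - c) ≤ S2)
    (h2 : 2 * b + 2 * g - 3 * c ≤ S) :
    Real.log b + Real.log g - (8883 / 10000 * S + 1943 / 2000 * S2) ≤
      (-(33344 / 10000) - 301 / 2500 * (42 / 10)) + 42 / 10 * c := by
  obtain ⟨t, ht⟩ : ∃ t : ℝ, t = Real.sqrt (b * g) := ⟨_, rfl⟩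
  have htp : 0 < t := by rw [ht]; positivity
  have ht2 : t ^ 2 = b * g := by rw [ht]; exact Real.sq_sqrt (by positivity)
  have hs : 2 * t ≤ b + g := by nlinarith [sq_nonneg (b - g), sq_nonneg (b + g - 2 * t)]
  have hlog : Real.log b + Real.log g = 2 * Real.log t := by
    rw [← Real.log_mul hb.ne' hg.ne', ← ht2, Real.log_pow]
    norm_num
  have e1 : Real.log t ≤ Real.log (69 / 200) + t / (69 / 200) - 1 := HVR_tan _ _ htp (by norm_num)
  have e3 : Real.log (69 / 200) ≤ -(10642 / 10000) := by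
    rw [Real.log_le_iff_le_exp (by norm_num)]
    have h := Real.exp_one_lt_d9
    have h0 : Real.exp (-(10642 / 10000)) = (Real.exp (10642 / 10000))⁻¹ := Real.exp_neg _
    rw [h0]
    have h3 : Real.exp (10642 / 10000) ≤ 200 / 69 := by
      have h4 : Real.exp (10642 / 10000) = Real.exp 1 * Real.exp (642 / 10000) := by
        rw [← Real.exp_add]
        norm_num
      have h5 : Real.exp (642 / 10000 : ℝ) ≤ 10663059 / 10000000 := by
        have h6 := Real.exp_bound (x := (642 / 10000 : ℝ)) (by rw [abs_of_pos] <;> norm_num)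
          (n := 4) (by norm_num)
        have h7 := (abs_le.mp h6).2
        norm_num [Finset.sum_range_succ, Nat.factorial, abs_of_pos] at h7
        linarith
      rw [h4]
      have h9 : 0 < Real.exp (642 / 10000 : ℝ) := Real.exp_pos _
      have h10 := Real.exp_pos 1
      nlinarith
    have hp := Real.exp_pos (10642 / 10000 : ℝ)
    rw [le_inv_comm₀ (by norm_num) hp]
    norm_num
    linarith
  have e4 : 4 * (b * g) - 2 * c * (b + g) ≤ S2 := by linarith
  have e5 : (2 * (8883 / 10000) - 2 * c * (1943 / 2000)) * (2 * t) ≤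
      (2 * (8883 / 10000) - 2 * c * (1943 / 2000)) * (b + g) :=
    mul_le_mul_of_nonneg_left hs (by linarith)
  have e6 : Real.log b + Real.log g - (8883 / 10000 * S + 1943 / 2000 * S2) ≤
      2 * (-(10642 / 10000) + t / (69 / 200) - 1) - 4 * (8883 / 10000) * t + 3 * (8883 / 10000) * c
        - 1943 / 500 * t ^ 2 + 1943 / 500 * c * t := by
    rw [hlog, ht2]
    nlinarith
  refine e6.trans ?_
  nlinarith [sq_nonneg (t - (22439 / 10000 + 1943 / 500 * c) / (1943 / 250)),
    mul_nonneg (sub_nonneg.2 hc1) (sub_nonneg.2 hc2)]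

theorem stmt_HVR (hTG : Stmt_TG) : Stmt_HVR := by
  intro c b g S S2 hc1 hc2 hb hg hbg hS hS2 h1 h1' h2
  have hBB : 0 < BB c := 
    lt_of_lt_of_le (by norm_num) (BB_ge c)
  rcases hb.eq_or_lt with hb0 | hb0
  · rw [← hb0]; simpa using hBB.le
  rcases hg.eq_or_lt with hg0 | hg0
  · rw [← hg0]; simpa using hBB.le
  have key : b * g * Real.exp (-(8883 / 10000 * S + 1943 / 2000 * S2)) =
      Real.exp (Real.log b + Real.log g - (8883 / 10000 * S + 1943 / 2000 * S2)) := by
    rw [sub_eq_add_neg, Real.exp_add, Real.exp_add, Real.exp_log hb0, Real.exp_log hg0]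
  rw [key]
  rcases h2 with h2 | h2 | h2
  · refine (Real.exp_le_exp.2 (HVR_one c b g S S2 hc1 hc2 hb0 hg0 hbg h1 h1' h2)).trans ?_
    exact hTG c _ _ hc1 hc2 (by norm_num) (by norm_num) (by norm_num)
  · refine (Real.exp_le_exp.2 (HVR_two c b g S S2 hc1 hc2 hb0 hg0 hbg h1 h2)).trans ?_
    exact hTG c _ _ hc1 hc2 (by norm_num) (by norm_num) (by norm_num)
  · have h3 := HVR_two c g b S S2 hc1 hc2 hg0 hb0 (by linarith) h1' (by linarith)
    rw [add_comm (Real.log g)] at h3
    refine (Real.exp_le_exp.2 h3).trans ?_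
    exact hTG c _ _ hc1 hc2 (by norm_num) (by norm_num) (by norm_num)

end Pool.Agent.Work.MP_1ce445_s8
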