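import Pool.Agent.Work.MP_1ce445_s8.Interface

/-!
Block K4 of MP_1ce445_s8: excluded by the field `nok4`.
-/

namespace Pool.Agent.Work.MP_1ce445_s8

open Finset Pool.Agent.Work.MP_1ce445_co_56 Pool.Agent.Work.MP_1ce445_lin

/-- The block. -/
theorem stmt_K4 : Stmt_K4 := by
  intro V _ k M T c hK x1 x2 x3 x4 hn h13 h14 h23 h24 h12 h34
  exact (hK.nok4 x1 x2 x3 x4 hn h12 h13 h14 h23 h24 h34).elim

end Pool.Agent.Work.MP_1ce445_s8
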