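import Pool.Agent.Work.MP_1ce445_s8.Interface

/-! # Block PWH: pattern with a triangle `x y z`, two heavy sides `x y`, `x z`, and a pair `x w` -/

namespace Pool.Agent.Work.MP_1ce445_s8

open Finset Pool.Agent.Work.MP_1ce445_co_56 Pool.Agent.Work.MP_1ce445_lin

theorem PWH_miss {V : Type} [Fintype V] {k : ℕ} (M : Finset (Fin k)) (T : V → Finset (Fin k))
    (c : ℝ) (h : Kg M T c) (a b : Fin k) (hR : R T a b) :
    ∑ v, (if a ∉ T v ∧ b ∉ T v then (1 : ℝ) else 0) ≤ c * Fintype.card V := by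
  obtain ⟨_, w, hw⟩ := hR
  rw [Finset.sum_boole]
  refine le_trans ?_ (h.few w)
  apply Nat.cast_le.2
  apply Finset.card_le_card
  intro v hv
  simp only [mem_filter, mem_univ, true_and] at hv ⊢
  rw [hw]
  ext x
  simp only [mem_inter, mem_insert, mem_singleton, notMem_empty, iff_false, not_and]
  rintro (rfl | rfl)
  · exact hv.1
  · exact hv.2

/-- every set meets a heavy pair -/
theorem PWH_heavy {V : Type} [Fintype V] {k : ℕ} (M : Finset (Fin k)) (T : V → Finset (Fin k))
    (c : ℝ) (h : Kg M T c) (a b : Fin k) (hR : c * Fintype.card V < nx T a b) (v : V) :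
    a ∈ T v ∨ b ∈ T v := by
  by_contra hcon
  push Not at hcon
  obtain ⟨ha, hb⟩ := hcon
  have h1 := h.few v
  have h2 : nx T a b ≤ (univ.filter (fun w => T v ∩ T w = ∅)).card := by
    unfold nx
    apply Finset.card_le_card
    intro w hw
    simp only [mem_filter, mem_univ, true_and] at hw ⊢
    rw [hw]
    ext x
    simp only [mem_inter, mem_insert, mem_singleton, notMem_empty, iff_false, not_and]
    rintro hx (rfl | rfl)
    · exact ha hx
    · exact hb hx
  have h3 : (nx T a b : ℝ) ≤ ((univ.filter (fun w => T v ∩ T w = ∅)).card : ℝ) := by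
    exact_mod_cast h2
  linarith

theorem PWH_log : 321 / 100 ≤ Real.log (18 / 5) + 2 * Real.log (12 / 5) +
    Real.log (6 / 5) := by
  have e1 : Real.log (18 / 5) + 2 * Real.log (12 / 5) + Real.log (6 / 5) =
      Real.log (15552 / 625) := by
    rw [show (2 : ℝ) * Real.log (12 / 5) = Real.log ((12 / 5) ^ 2) by
      rw [Real.log_pow]; norm_num, ← Real.log_mul (by norm_num) (by norm_num),
      ← Real.log_mul (by norm_num) (by norm_num)]
    norm_num
  rw [e1]
  have e2 : 5 * Real.log (15552 / 625) = Real.log ((15552 / 625) ^ 5) := by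
    rw [Real.log_pow]; norm_num
  have e3 : (1605 / 100 : ℝ) ≤ Real.log ((15552 / 625) ^ 5) := by
    rw [Real.le_log_iff_exp_le (by norm_num)]
    have h1 : Real.exp (1605 / 100) = Real.exp 1 ^ 16 * Real.exp (5 / 100) := by
      rw [← Real.exp_nat_mul, ← Real.exp_add]
      norm_num
    have h2 : Real.exp 1 ^ 16 ≤ 2.7182818286 ^ 16 :=
      pow_le_pow_left₀ (Real.exp_pos 1).le Real.exp_one_lt_d9.le 16
    have h3 : Real.exp (5 / 100) ≤ 100 / 95 := by
      have h4 := Real.add_one_le_exp (-(5 / 100 : ℝ))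
      rw [Real.exp_neg] at h4
      have h5 : (0 : ℝ) < Real.exp (5 / 100) := Real.exp_pos _
      rw [le_div_iff₀ (by norm_num)]
      have h6 : (Real.exp (5 / 100))⁻¹ * Real.exp (5 / 100) = 1 := inv_mul_cancel₀ h5.ne'
      nlinarith
    rw [h1]
    calc Real.exp 1 ^ 16 * Real.exp (5 / 100) ≤ 2.7182818286 ^ 16 * (100 / 95) :=
          mul_le_mul h2 h3 (Real.exp_pos _).le (by norm_num)
      _ ≤ (15552 / 625) ^ 5 := by norm_num
  linarith

/-- the further terms -/
noncomputable def PWH_ph {V : Type} {k : ℕ} (T : V → Finset (Fin k)) (x y z w : Fin k) (v : V) : ℝ :=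
  7 / 5 * (if y ∉ T v ∧ z ∉ T v then (1 : ℝ) else 0) +
  4 / 5 * (if x ∉ T v ∧ w ∉ T v then (1 : ℝ) else 0) +
  2 / 5 * (if T v = {y, z} then (1 : ℝ) else 0)

theorem PWH_K {k : ℕ} (S : Finset (Fin k)) (x y z w : Fin k)
    (hyw : y ≠ w) (hzw : z ≠ w) (h2 : 2 ≤ S.card)
    (hS : S.card = 2 → x ∈ S ∨ S = {y, z}) (hy' : x ∈ S ∨ y ∈ S) (hz' : x ∈ S ∨ z ∈ S) :
    (6 : ℝ) ≤ (S.card : ℝ) + ((if x ∈ S then (18 / 5 : ℝ) - 1 else 0) +
      (if y ∈ S then (12 / 5 : ℝ) - 1 else 0) + (if z ∈ S then (12 / 5 : ℝ) - 1 else 0) +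
      (if w ∈ S then (6 / 5 : ℝ) - 1 else 0)) +
      (7 / 5 * (if y ∉ S ∧ z ∉ S then (1 : ℝ) else 0) +
      4 / 5 * (if x ∉ S ∧ w ∉ S then (1 : ℝ) else 0) +
      2 / 5 * (if S = {y, z} then (1 : ℝ) else 0)) := by
  have g1 : (0 : ℝ) ≤ (if S = {y, z} then (1 : ℝ) else 0) := by split_ifs <;> norm_num
  have h2' : (2 : ℝ) ≤ S.card := by exact_mod_cast h2
  by_cases hx : x ∈ S
  · by_cases hy : y ∈ S <;> by_cases hz : z ∈ S <;> by_cases hw : w ∈ S <;>
      simp only [hx, hy, hz, hw, if_true, if_false, not_true_eq_false, not_false_eq_true,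
        and_true, and_false, and_self] <;> linarith
  · have hy := hy'.resolve_left hx
    have hz := hz'.resolve_left hx
    rcases Nat.lt_or_ge 2 S.card with h3 | h3
    · have h3' : (3 : ℝ) ≤ S.card := by exact_mod_cast h3
      by_cases hw : w ∈ S <;>
        simp only [hx, hy, hz, hw, if_true, if_false, not_true_eq_false, not_false_eq_true,
          and_true, and_false, and_self] <;> linarith
    · have hc : S.card = 2 := le_antisymm h3 h2
      have e := (hS hc).resolve_left hx
      have g4 : (if S = {y, z} then (1 : ℝ) else 0) = 1 := if_pos e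
      have hw : w ∉ S := by
        rw [e]
        simp only [mem_insert, mem_singleton, not_or]
        exact ⟨hyw.symm, hzw.symm⟩
      rw [g4]
      simp only [hx, hy, hz, hw, if_true, if_false, not_true_eq_false, not_false_eq_true,
        and_true, and_false, and_self]
      linarith

theorem stmt_PWH (h1 : Stmt_TG) (h2 : Stmt_LPC) : Stmt_PWH := by
  classical
  intro V _ k M T c hK x y z w hnd hxyH hxzH hyzR hyzL hxwR hT
  have hN : (0 : ℝ) < Fintype.card V := by exact_mod_cast hK.pos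
  simp only [List.nodup_cons, List.mem_cons, List.not_mem_nil, or_false, not_or,
    not_false_eq_true, List.nodup_nil, and_true] at hnd
  obtain ⟨⟨hxy, hxz, hxw⟩, ⟨hyz, hyw⟩, hzw⟩ := hnd
  have hinj : Function.Injective (![x, y, z, w] : Fin 4 → Fin k) := by
    intro i j hij
    fin_cases i <;> fin_cases j <;> simp at hij ⊢ <;>
      first
        | exact hxy hij
        | exact hxz hij
        | exact hxw hij
        | exact hyz hij
        | exact hyw hij
        | exact hzw hij
        | exact hxy hij.symm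
        | exact hxz hij.symm
        | exact hxw hij.symm
        | exact hyz hij.symm
        | exact hyw hij.symm
        | exact hzw hij.symm
  have hl : ∀ i : Fin 4, 1 ≤ (![18 / 5, 12 / 5, 12 / 5, 6 / 5] : Fin 4 → ℝ) i := by
    intro i
    fin_cases i <;> norm_num
  have key := h2 M T hK.pos hK.sub 4 ![x, y, z, w] ![18 / 5, 12 / 5, 12 / 5, 6 / 5]
    (PWH_ph T x y z w) 6 hinj hl (by
      intro v
      have := PWH_K (T v) x y z w hyw hzw (hK.two v) (hT v)
        (PWH_heavy M T c hK.toKg x y hxyH v) (PWH_heavy M T c hK.toKg x z hxzH v)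
      rw [Fin.sum_univ_four]
      simpa [PWH_ph] using this)
  refine key.trans ?_
  have hsum : ∑ v, PWH_ph T x y z w v ≤ (13 / 5 * c) * Fintype.card V := by
    have m1 := PWH_miss M T c hK.toKg y z hyzR
    have m4 := PWH_miss M T c hK.toKg x w hxwR
    have n1 : ∑ v, (if T v = {y, z} then (1 : ℝ) else 0) ≤ c * Fintype.card V := by
      rw [Finset.sum_boole]; exact hyzL
    have e : ∑ v, PWH_ph T x y z w v =
        7 / 5 * ∑ v, (if y ∉ T v ∧ z ∉ T v then (1 : ℝ) else 0) +
        4 / 5 * ∑ v, (if x ∉ T v ∧ w ∉ T v then (1 : ℝ) else 0) +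
        2 / 5 * ∑ v, (if T v = {y, z} then (1 : ℝ) else 0) := by
      unfold PWH_ph
      simp only [Finset.sum_add_distrib, Finset.mul_sum]
    rw [e]
    linarith
  have hdiv : (∑ v, PWH_ph T x y z w v) / Fintype.card V ≤ 13 / 5 * c := by
    rw [div_le_iff₀ hN]
    exact hsum
  have hsq : 0 ≤ (∑ u ∈ M.filter (fun u => ∀ i, u ≠ (![x, y, z, w] : Fin 4 → Fin k) i),
      pr T u ^ 2) / 2 := by
    apply div_nonneg _ (by norm_num)
    exact Finset.sum_nonneg (fun _ _ => sq_nonneg _)
  have hlog := PWH_log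
  have hs4 : ∑ i : Fin 4, ((![18 / 5, 12 / 5, 12 / 5, 6 / 5] : Fin 4 → ℝ) i - 1 -
      Real.log ((![18 / 5, 12 / 5, 12 / 5, 6 / 5] : Fin 4 → ℝ) i)) =
      28 / 5 - (Real.log (18 / 5) + 2 * Real.log (12 / 5) + Real.log (6 / 5)) := by
    rw [Fin.sum_univ_four]
    simp only [Matrix.cons_val_zero, Matrix.cons_val_one, Matrix.cons_val]
    ring
  have hfin := h1 c (28 / 5 - 321 / 100 - 6) (13 / 5) hK.cl hK.cu
    (by norm_num) (by norm_num) (by norm_num)
  refine le_trans (Real.exp_le_exp.2 ?_) hfin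
  rw [hs4]
  linarith

end Pool.Agent.Work.MP_1ce445_s8
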