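import Pool.Agent.Work.MP_1ce445_s8.Interface

/-! # Block PWL: pattern with a light triangle `x y z` and a pair `x w` -/

namespace Pool.Agent.Work.MP_1ce445_s8

open Finset Pool.Agent.Work.MP_1ce445_co_56 Pool.Agent.Work.MP_1ce445_lin

theorem PWL_miss {V : Type} [Fintype V] {k : ℕ} (M : Finset (Fin k)) (T : V → Finset (Fin k))
    (c : ℝ) (h : Kg M T c) (a b : Fin k) (hR : R T a b) :
    ∑ v, (if a ∉ T v ∧ b ∉ T v then (1 : ℝ) else 0) ≤ c * Fintype.card V := by
  obtain ⟨_, w, hw⟩ := hR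
  rw [Finset.sum_boole]
  refine le_trans ?_ (h.few w)
  apply Nat.cast_le.2
  apply Finset.card_le_card
  intro v hv
  simp only [mem_filter, mem_univ, true_and] at hv ⊢
  rw [hw]
  ext x
  simp only [mem_inter, mem_insert, mem_singleton, notMem_empty, iff_false, not_and]
  rintro (rfl | rfl)
  · exact hv.1
  · exact hv.2

theorem PWL_eq {k : ℕ} (S : Finset (Fin k)) (hS : S.card = 2) (a b : Fin k) (hab : a ≠ b)
    (ha : a ∈ S) (hb : b ∈ S) : S = {a, b} := by
  symm
  apply Finset.eq_of_subset_of_card_le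
  · intro x hx
    simp only [mem_insert, mem_singleton] at hx
    rcases hx with rfl | rfl <;> assumption
  · rw [hS, Finset.card_pair hab]

theorem PWL_log : 26716 / 10000 ≤ Real.log (11 / 5) + 2 * Real.log (21 / 10) +
    Real.log (3 / 2) := by
  have e1 : Real.log (11 / 5) + 2 * Real.log (21 / 10) + Real.log (3 / 2) =
      Real.log (14553 / 1000) := by
    rw [show (2 : ℝ) * Real.log (21 / 10) = Real.log ((21 / 10) ^ 2) by
      rw [Real.log_pow]; norm_num, ← Real.log_mul (by norm_num) (by norm_num),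
      ← Real.log_mul (by norm_num) (by norm_num)]
    norm_num
  rw [e1]
  have e2 : 3 * Real.log (14553 / 1000) = Real.log ((14553 / 1000) ^ 3) := by
    rw [Real.log_pow]; norm_num
  have e3 : (80148 / 10000 : ℝ) ≤ Real.log ((14553 / 1000) ^ 3) := by
    rw [Real.le_log_iff_exp_le (by norm_num)]
    have h1 : Real.exp (80148 / 10000) = Real.exp 1 ^ 8 * Real.exp (148 / 10000) := by
      rw [← Real.exp_nat_mul, ← Real.exp_add]
      norm_num
    have h2 : Real.exp 1 ^ 8 ≤ 2.7182818286 ^ 8 :=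
      pow_le_pow_left₀ (Real.exp_pos 1).le Real.exp_one_lt_d9.le 8
    have h3 : Real.exp (148 / 10000) ≤ 10000 / 9852 := by
      have h4 := Real.add_one_le_exp (-(148 / 10000 : ℝ))
      rw [Real.exp_neg] at h4
      have h5 : (0 : ℝ) < Real.exp (148 / 10000) := Real.exp_pos _
      rw [le_div_iff₀ (by norm_num)]
      have h6 : (Real.exp (148 / 10000))⁻¹ * Real.exp (148 / 10000) = 1 := inv_mul_cancel₀ h5.ne'
      nlinarith
    rw [h1]
    calc Real.exp 1 ^ 8 * Real.exp (148 / 10000) ≤ 2.7182818286 ^ 8 * (10000 / 9852) :=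
          mul_le_mul h2 h3 (Real.exp_pos _).le (by norm_num)
      _ ≤ (14553 / 1000) ^ 3 := by norm_num
  linarith

/-- the further terms -/
noncomputable def PWL_ph {V : Type} {k : ℕ} (T : V → Finset (Fin k)) (x y z w : Fin k) (v : V) : ℝ :=
  21 / 10 * (if y ∉ T v ∧ z ∉ T v then (1 : ℝ) else 0) +
  11 / 10 * (if x ∉ T v ∧ y ∉ T v then (1 : ℝ) else 0) +
  11 / 10 * (if x ∉ T v ∧ z ∉ T v then (1 : ℝ) else 0) +
  13 / 10 * (if x ∉ T v ∧ w ∉ T v then (1 : ℝ) else 0) +
  1 / 5 * (if T v = {y, z} then (1 : ℝ) else 0) +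
  1 * (if T v = {x, y} then (1 : ℝ) else 0) +
  1 * (if T v = {x, z} then (1 : ℝ) else 0) +
  2 / 5 * (if x ∈ T v then (1 : ℝ) else 0)

theorem PWL_K {k : ℕ} (S : Finset (Fin k)) (x y z w : Fin k) (hxy : x ≠ y) (hxz : x ≠ z)
    (hxw : x ≠ w) (hyz : y ≠ z) (hyw : y ≠ w) (hzw : z ≠ w) (h2 : 2 ≤ S.card)
    (hS : S.card = 2 → x ∈ S ∨ S = {y, z}) :
    (57 / 10 : ℝ) ≤ (S.card : ℝ) + ((if x ∈ S then (11 / 5 : ℝ) - 1 else 0) +
      (if y ∈ S then (21 / 10 : ℝ) - 1 else 0) + (if z ∈ S then (21 / 10 : ℝ) - 1 else 0) +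
      (if w ∈ S then (3 / 2 : ℝ) - 1 else 0)) +
      (21 / 10 * (if y ∉ S ∧ z ∉ S then (1 : ℝ) else 0) +
      11 / 10 * (if x ∉ S ∧ y ∉ S then (1 : ℝ) else 0) +
      11 / 10 * (if x ∉ S ∧ z ∉ S then (1 : ℝ) else 0) +
      13 / 10 * (if x ∉ S ∧ w ∉ S then (1 : ℝ) else 0) +
      1 / 5 * (if S = {y, z} then (1 : ℝ) else 0) +
      1 * (if S = {x, y} then (1 : ℝ) else 0) +
      1 * (if S = {x, z} then (1 : ℝ) else 0) +
      2 / 5 * (if x ∈ S then (1 : ℝ) else 0)) := by
  have g1 : (0 : ℝ) ≤ (if S = {y, z} then (1 : ℝ) else 0) := by split_ifs <;> norm_num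
  have g2 : (0 : ℝ) ≤ (if S = {x, y} then (1 : ℝ) else 0) := by split_ifs <;> norm_num
  have g3 : (0 : ℝ) ≤ (if S = {x, z} then (1 : ℝ) else 0) := by split_ifs <;> norm_num
  have h2' : (2 : ℝ) ≤ S.card := by exact_mod_cast h2
  rcases Nat.lt_or_ge 2 S.card with h3 | h3
  · have h3' : (3 : ℝ) ≤ S.card := by exact_mod_cast h3
    by_cases hx : x ∈ S <;> by_cases hy : y ∈ S <;> by_cases hz : z ∈ S <;>
      by_cases hw : w ∈ S <;>
      simp only [hx, hy, hz, hw, if_true, if_false, not_true_eq_false, not_false_eq_true,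
        and_true, and_false, and_self] <;> linarith
  · have hc : S.card = 2 := le_antisymm h3 h2
    by_cases hx : x ∈ S
    · by_cases hy : y ∈ S
      · have e := PWL_eq S hc x y hxy hx hy
        have g4 : (if S = {x, y} then (1 : ℝ) else 0) = 1 := if_pos e
        rw [g4]
        by_cases hz : z ∈ S <;> by_cases hw : w ∈ S <;>
          simp only [hx, hy, hz, hw, if_true, if_false, not_true_eq_false, not_false_eq_true,
            and_true, and_false, and_self] <;> linarith
      · by_cases hz : z ∈ S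
        · have e := PWL_eq S hc x z hxz hx hz
          have g4 : (if S = {x, z} then (1 : ℝ) else 0) = 1 := if_pos e
          rw [g4]
          by_cases hw : w ∈ S <;>
            simp only [hx, hy, hz, hw, if_true, if_false, not_true_eq_false, not_false_eq_true,
              and_true, and_false, and_self] <;> linarith
        · by_cases hw : w ∈ S <;>
            simp only [hx, hy, hz, hw, if_true, if_false, not_true_eq_false, not_false_eq_true,
              and_true, and_false, and_self] <;> linarith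
    · have e := (hS hc).resolve_left hx
      have g4 : (if S = {y, z} then (1 : ℝ) else 0) = 1 := if_pos e
      have hy : y ∈ S := by rw [e]; simp
      have hz : z ∈ S := by rw [e]; simp
      have hw : w ∉ S := by
        rw [e]
        simp only [mem_insert, mem_singleton, not_or]
        exact ⟨hyw.symm, hzw.symm⟩
      rw [g4]
      simp only [hx, hy, hz, hw, if_true, if_false, not_true_eq_false, not_false_eq_true,
        and_true, and_false, and_self]
      linarith

theorem stmt_PWL (h1 : Stmt_TG) (h2 : Stmt_LPC) : Stmt_PWL := by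
  classical
  intro V _ k M T c hK hL x y z w hnd hxyR hxzR hyzR hxwR hT hp
  have hN : (0 : ℝ) < Fintype.card V := by exact_mod_cast hK.pos
  simp only [List.nodup_cons, List.mem_cons, List.not_mem_nil, or_false, not_or,
    not_false_eq_true, List.nodup_nil, and_true] at hnd
  obtain ⟨⟨hxy, hxz, hxw⟩, ⟨hyz, hyw⟩, hzw⟩ := hnd
  have hinj : Function.Injective (![x, y, z, w] : Fin 4 → Fin k) := by
    intro i j hij
    fin_cases i <;> fin_cases j <;> simp at hij ⊢ <;>
      first
        | exact hxy hij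
        | exact hxz hij
        | exact hxw hij
        | exact hyz hij
        | exact hyw hij
        | exact hzw hij
        | exact hxy hij.symm
        | exact hxz hij.symm
        | exact hxw hij.symm
        | exact hyz hij.symm
        | exact hyw hij.symm
        | exact hzw hij.symm
  have hl : ∀ i : Fin 4, 1 ≤ (![11 / 5, 21 / 10, 21 / 10, 3 / 2] : Fin 4 → ℝ) i := by
    intro i
    fin_cases i <;> norm_num
  have key := h2 M T hK.pos hK.sub 4 ![x, y, z, w] ![11 / 5, 21 / 10, 21 / 10, 3 / 2]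
    (PWL_ph T x y z w) (57 / 10) hinj hl (by
      intro v
      have := PWL_K (T v) x y z w hxy hxz hxw hyz hyw hzw (hK.two v) (hT v)
      rw [Fin.sum_univ_four]
      simpa [PWL_ph] using this)
  refine key.trans ?_
  have hsum : ∑ v, PWL_ph T x y z w v ≤ (39 / 5 * c + 22 / 100) * Fintype.card V := by
    have m1 := PWL_miss M T c hK.toKg y z hyzR
    have m2 := PWL_miss M T c hK.toKg x y hxyR
    have m3 := PWL_miss M T c hK.toKg x z hxzR
    have m4 := PWL_miss M T c hK.toKg x w hxwR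
    have n1 : ∑ v, (if T v = {y, z} then (1 : ℝ) else 0) ≤ c * Fintype.card V := by
      rw [Finset.sum_boole]; exact hL y z hyz
    have n2 : ∑ v, (if T v = {x, y} then (1 : ℝ) else 0) ≤ c * Fintype.card V := by
      rw [Finset.sum_boole]; exact hL x y hxy
    have n3 : ∑ v, (if T v = {x, z} then (1 : ℝ) else 0) ≤ c * Fintype.card V := by
      rw [Finset.sum_boole]; exact hL x z hxz
    have n4 : ∑ v, (if x ∈ T v then (1 : ℝ) else 0) ≤ 11 / 20 * Fintype.card V := by
      rw [Finset.sum_boole]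
      have : pr T x ≤ 11 / 20 := by linarith
      unfold pr at this
      rwa [div_le_iff₀ hN] at this
    have e : ∑ v, PWL_ph T x y z w v =
        21 / 10 * ∑ v, (if y ∉ T v ∧ z ∉ T v then (1 : ℝ) else 0) +
        11 / 10 * ∑ v, (if x ∉ T v ∧ y ∉ T v then (1 : ℝ) else 0) +
        11 / 10 * ∑ v, (if x ∉ T v ∧ z ∉ T v then (1 : ℝ) else 0) +
        13 / 10 * ∑ v, (if x ∉ T v ∧ w ∉ T v then (1 : ℝ) else 0) +
        1 / 5 * ∑ v, (if T v = {y, z} then (1 : ℝ) else 0) +
        1 * ∑ v, (if T v = {x, y} then (1 : ℝ) else 0) +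
        1 * ∑ v, (if T v = {x, z} then (1 : ℝ) else 0) +
        2 / 5 * ∑ v, (if x ∈ T v then (1 : ℝ) else 0) := by
      unfold PWL_ph
      simp only [Finset.sum_add_distrib, Finset.mul_sum]
    rw [e]
    linarith
  have hdiv : (∑ v, PWL_ph T x y z w v) / Fintype.card V ≤ 39 / 5 * c + 22 / 100 := by
    rw [div_le_iff₀ hN]
    exact hsum
  have hsq : 0 ≤ (∑ u ∈ M.filter (fun u => ∀ i, u ≠ (![x, y, z, w] : Fin 4 → Fin k) i),
      pr T u ^ 2) / 2 := by
    apply div_nonneg _ (by norm_num)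
    exact Finset.sum_nonneg (fun _ _ => sq_nonneg _)
  have hlog := PWL_log
  have hs4 : ∑ i : Fin 4, ((![11 / 5, 21 / 10, 21 / 10, 3 / 2] : Fin 4 → ℝ) i - 1 -
      Real.log ((![11 / 5, 21 / 10, 21 / 10, 3 / 2] : Fin 4 → ℝ) i)) =
      39 / 10 - (Real.log (11 / 5) + 2 * Real.log (21 / 10) + Real.log (3 / 2)) := by
    rw [Fin.sum_univ_four]
    simp only [Matrix.cons_val_zero, Matrix.cons_val_one, Matrix.cons_val]
    ring
  have hfin := h1 c (39 / 10 - 26716 / 10000 - 57 / 10 + 22 / 100) (39 / 5) hK.cl hK.cu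
    (by norm_num) (by norm_num) (by norm_num)
  refine le_trans (Real.exp_le_exp.2 ?_) hfin
  rw [hs4]
  linarith

end Pool.Agent.Work.MP_1ce445_s8
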