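import Pool.Agent.Work.MP_1ce445_s8.Interface

/-! # Block STL: a light star with more than `2 c N` sets with two elements -/

namespace Pool.Agent.Work.MP_1ce445_s8

open Finset Pool.Agent.Work.MP_1ce445_co_56 Pool.Agent.Work.MP_1ce445_lin

theorem STL_pr01 {V : Type} [Fintype V] {k : ℕ} (T : V → Finset (Fin k)) (j : Fin k)
    (hN : 0 < Fintype.card V) : 0 ≤ pr T j ∧ pr T j ≤ 1 := by
  have hN' : (0 : ℝ) < Fintype.card V := by exact_mod_cast hN
  constructor
  · unfold pr
    positivity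
  · have h2 : (univ.filter (fun v => j ∈ T v)).card ≤ Fintype.card V := by
      rw [← Finset.card_univ]
      exact Finset.card_le_card (Finset.filter_subset _ _)
    have h3 : ((univ.filter (fun v => j ∈ T v)).card : ℝ) ≤ Fintype.card V := by
      exact_mod_cast h2
    unfold pr
    rw [div_le_one hN']
    exact h3

/-- the product over `M.erase x`, first bound -/
theorem STL_prodA {k : ℕ} (hTA : Stmt_TA) (A : Finset (Fin k)) (p : Fin k → ℝ)
    (h0 : ∀ j, 0 ≤ p j) (h1 : ∀ j, p j ≤ 1) :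
    ∏ j ∈ A, (1 - p j) ≤
      Real.exp (-(8883 / 10000 * (∑ j ∈ A, p j) + 1943 / 2000 * (∑ j ∈ A, p j ^ 2))) := by
  have h2 : ∏ j ∈ A, (1 - p j) ≤
      ∏ j ∈ A, Real.exp (-(8883 / 10000 * p j + 1943 / 2000 * p j ^ 2)) := by
    refine Finset.prod_le_prod (fun j _ => ?_) (fun j _ => hTA (p j) (h0 j) (h1 j))
    have := h1 j
    linarith
  refine h2.trans (le_of_eq ?_)
  rw [← Real.exp_sum]
  congr 1
  rw [Finset.sum_neg_distrib, Finset.sum_add_distrib, ← Finset.mul_sum, ← Finset.mul_sum]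

/-- the product over `A`, with the leaves `L ⊆ A` -/
theorem STL_prodB {k : ℕ} (A L : Finset (Fin k)) (hLA : L ⊆ A) (p : Fin k → ℝ)
    (h1 : ∀ j, p j ≤ 1) :
    ∏ j ∈ A, (1 - p j) ≤ (5 / 9 * Real.exp (4 / 5)) ^ L.card *
      Real.exp (-(4 / 5 * (∑ j ∈ L, p j) + ∑ j ∈ A, p j)) := by
  classical
  have e1 : ∏ j ∈ L, (1 - p j) ≤
      (5 / 9 * Real.exp (4 / 5)) ^ L.card * Real.exp (-(9 / 5 * ∑ j ∈ L, p j)) := by
    have h2 : ∏ j ∈ L, (1 - p j) ≤
        ∏ j ∈ L, (5 / 9 * Real.exp (4 / 5) * Real.exp (-(9 / 5 * p j))) := by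
      refine Finset.prod_le_prod (fun j _ => ?_) (fun j _ => ?_)
      · have := h1 j
        linarith
      · have h3 := Real.add_one_le_exp (9 / 5 * (1 - p j) - 1)
        have h4 : Real.exp (9 / 5 * (1 - p j) - 1) =
            Real.exp (4 / 5) * Real.exp (-(9 / 5 * p j)) := by
          rw [← Real.exp_add]
          congr 1
          ring
        rw [h4] at h3
        linarith
    refine h2.trans (le_of_eq ?_)
    rw [Finset.prod_mul_distrib, Finset.prod_const, ← Real.exp_sum]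
    congr 2
    rw [Finset.sum_neg_distrib, ← Finset.mul_sum]
  have e2 : ∏ j ∈ A \ L, (1 - p j) ≤ Real.exp (-(∑ j ∈ A \ L, p j)) := by
    have h2 : ∏ j ∈ A \ L, (1 - p j) ≤ ∏ j ∈ A \ L, Real.exp (-(p j)) := by
      refine Finset.prod_le_prod (fun j _ => ?_) (fun j _ => ?_)
      · have := h1 j
        linarith
      · have h3 := Real.add_one_le_exp (-(p j))
        linarith
    refine h2.trans (le_of_eq ?_)
    rw [← Real.exp_sum, Finset.sum_neg_distrib]
  have e3 : (∏ j ∈ A \ L, (1 - p j)) * ∏ j ∈ L, (1 - p j) = ∏ j ∈ A, (1 - p j) :=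
    Finset.prod_sdiff hLA
  have e4 : (∑ j ∈ A \ L, p j) + ∑ j ∈ L, p j = ∑ j ∈ A, p j := Finset.sum_sdiff hLA
  have n1 : 0 ≤ ∏ j ∈ L, (1 - p j) := Finset.prod_nonneg (fun j _ => by have := h1 j; linarith)
  rw [← e3]
  calc (∏ j ∈ A \ L, (1 - p j)) * ∏ j ∈ L, (1 - p j)
      ≤ Real.exp (-(∑ j ∈ A \ L, p j)) *
        ((5 / 9 * Real.exp (4 / 5)) ^ L.card * Real.exp (-(9 / 5 * ∑ j ∈ L, p j))) :=
        mul_le_mul e2 e1 n1 (Real.exp_pos _).le
    _ = (5 / 9 * Real.exp (4 / 5)) ^ L.card *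
        (Real.exp (-(∑ j ∈ A \ L, p j)) * Real.exp (-(9 / 5 * ∑ j ∈ L, p j))) := by ring
    _ = (5 / 9 * Real.exp (4 / 5)) ^ L.card *
        Real.exp (-(4 / 5 * (∑ j ∈ L, p j) + ∑ j ∈ A, p j)) := by
        rw [← Real.exp_add, ← e4]
        congr 2
        ring

/-- the leaves -/
theorem STL_leaves {V : Type} [Fintype V] {k : ℕ} (M : Finset (Fin k)) (T : V → Finset (Fin k))
    (c : ℝ) (h : Kf M T c) (hl : Light T c) (x : Fin k) (b : ℝ)
    (h4 : ∀ j, R T x j → (nx T x j : ℝ) / Fintype.card V + b - c ≤ pr T j) :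
    ∃ L : Finset (Fin k), L ⊆ M.erase x ∧
      ((univ.filter (fun v => (T v).card = 2 ∧ x ∈ T v)).card : ℝ) / Fintype.card V ≤
        L.card * c ∧
      ((univ.filter (fun v => (T v).card = 2 ∧ x ∈ T v)).card : ℝ) / Fintype.card V +
        L.card * (b - c) ≤ ∑ j ∈ L, pr T j := by
  classical
  have hN : (0 : ℝ) < Fintype.card V := by exact_mod_cast h.pos
  refine ⟨(M.erase x).filter (fun j => ∃ v, T v = {x, j}), Finset.filter_subset _ _, ?_, ?_⟩
  all_goals
    set L := (M.erase x).filter (fun j => ∃ v, T v = {x, j}) with hL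
    have k1 : (univ.filter (fun v => (T v).card = 2 ∧ x ∈ T v)) ⊆
        L.biUnion (fun j => univ.filter (fun v => T v = {x, j})) := by
      intro v hv
      obtain ⟨hc, hx⟩ := (Finset.mem_filter.1 hv).2
      obtain ⟨a, b', hab, hT⟩ := Finset.card_eq_two.1 hc
      rw [hT, Finset.mem_insert, Finset.mem_singleton] at hx
      have hj : ∃ j, j ≠ x ∧ T v = {x, j} := by
        rcases hx with hx | hx
        · exact ⟨b', by rw [hx]; exact hab.symm, by rw [hT, hx]⟩
        · exact ⟨a, by rw [hx]; exact hab, by rw [hT, hx]; exact Finset.pair_comm _ _⟩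
      obtain ⟨j, hjx, hj⟩ := hj
      rw [Finset.mem_biUnion]
      refine ⟨j, ?_, Finset.mem_filter.2 ⟨Finset.mem_univ v, hj⟩⟩
      rw [hL, Finset.mem_filter, Finset.mem_erase]
      refine ⟨⟨hjx, h.sub v ?_⟩, v, hj⟩
      rw [hj]
      exact Finset.mem_insert_of_mem (Finset.mem_singleton_self j)
    have k2 : (univ.filter (fun v => (T v).card = 2 ∧ x ∈ T v)).card ≤ ∑ j ∈ L, nx T x j :=
      (Finset.card_le_card k1).trans Finset.card_biUnion_le
    have k3 : ((univ.filter (fun v => (T v).card = 2 ∧ x ∈ T v)).card : ℝ) ≤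
        ∑ j ∈ L, (nx T x j : ℝ) := by exact_mod_cast k2
  · rw [div_le_iff₀ hN]
    refine k3.trans ?_
    have k4 : ∑ j ∈ L, (nx T x j : ℝ) ≤ ∑ j ∈ L, c * Fintype.card V := by
      refine Finset.sum_le_sum (fun j hj => ?_)
      rw [hL, Finset.mem_filter, Finset.mem_erase] at hj
      exact hl x j (Ne.symm hj.1.1)
    refine k4.trans (le_of_eq ?_)
    rw [Finset.sum_const, nsmul_eq_mul]
    ring
  · have k4 : ∑ j ∈ L, ((nx T x j : ℝ) / Fintype.card V + b - c) ≤ ∑ j ∈ L, pr T j := by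
      refine Finset.sum_le_sum (fun j hj => ?_)
      rw [hL, Finset.mem_filter, Finset.mem_erase] at hj
      exact h4 j ⟨Ne.symm hj.1.1, hj.2⟩
    refine le_trans ?_ k4
    have k5 : ∑ j ∈ L, ((nx T x j : ℝ) / Fintype.card V + b - c) =
        (∑ j ∈ L, (nx T x j : ℝ)) / Fintype.card V + L.card * (b - c) := by
      rw [Finset.sum_sub_distrib, Finset.sum_add_distrib, Finset.sum_div, Finset.sum_const,
        Finset.sum_const, nsmul_eq_mul, nsmul_eq_mul]
      ring
    rw [k5]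
    have k6 := div_le_div_of_nonneg_right k3 hN.le
    linarith

theorem stmt_STL (hTA : Stmt_TA) (hSTA : Stmt_STA) (hR1 : Stmt_R1) (hR2 : Stmt_R2) :
    Stmt_STL := by
  intro V _ k M T c h hl x hx hn
  classical
  have hN : (0 : ℝ) < Fintype.card V := by exact_mod_cast h.pos
  have hcl := h.cl
  have hcu := h.cu
  have hc : 0 < c := by linarith
  obtain ⟨om, hom⟩ : ∃ om : ℝ, om =
      ((univ.filter (fun v => (T v).card = 2 ∧ x ∈ T v)).card : ℝ) / Fintype.card V := ⟨_, rfl⟩
  obtain ⟨e0, he0⟩ : ∃ e0 : ℝ, e0 =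
      ((univ.filter (fun v => (T v).card = 2 ∧ x ∉ T v)).card : ℝ) / Fintype.card V := ⟨_, rfl⟩
  obtain ⟨s1, s2, s3, s4⟩ := hSTA M T c h x om e0 hom he0
  obtain ⟨b, hb⟩ : ∃ b : ℝ, b = 1 - pr T x := ⟨_, rfl⟩
  have hp := STL_pr01 T x h.pos
  have hb0 : 0 ≤ b := by rw [hb]; linarith [hp.2]
  have hb1 : b ≤ 1 := by rw [hb]; linarith [hp.1]
  have hpx : pr T x = 1 - b := by rw [hb]; ring
  rw [← hb] at s1 s2 s3
  rw [hpx] at s2 s3
  have he : e0 = 0 := by
    have h1 : (univ.filter (fun v => (T v).card = 2 ∧ x ∉ T v)) = ∅ := by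
      rw [Finset.filter_eq_empty_iff]
      intro v _ hv
      exact hv.2 (hx v hv.1)
    rw [he0, h1]
    simp
  have s3' := s3 he hl
  have hfil : (univ.filter (fun v => (T v).card = 2 ∧ x ∈ T v)) =
      univ.filter (fun v => (T v).card = 2) := by
    ext v
    rw [Finset.mem_filter, Finset.mem_filter]
    exact ⟨fun hv => ⟨hv.1, hv.2.1⟩, fun hv => ⟨hv.1, hv.2, hx v hv.2⟩⟩
  have hom2 : 2 * c < om := by
    rw [hom, lt_div_iff₀ hN, hfil]
    exact hn
  have hom1 : om ≤ 1 - b := by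
    rw [← hpx, hom]
    unfold pr
    have h1 : (univ.filter (fun v => (T v).card = 2 ∧ x ∈ T v)).card ≤
        (univ.filter (fun v => x ∈ T v)).card := by
      refine Finset.card_le_card (fun v hv => ?_)
      rw [Finset.mem_filter] at hv ⊢
      exact ⟨hv.1, hv.2.2⟩
    have h2 : ((univ.filter (fun v => (T v).card = 2 ∧ x ∈ T v)).card : ℝ) ≤
        ((univ.filter (fun v => x ∈ T v)).card : ℝ) := by exact_mod_cast h1
    exact div_le_div_of_nonneg_right h2 hN.le
  have hxM : x ∈ M := by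
    have h1 : (univ.filter (fun v => (T v).card = 2 ∧ x ∈ T v)).Nonempty := by
      rw [Finset.nonempty_iff_ne_empty]
      intro h0
      rw [hom, h0] at hom2
      simp at hom2
      linarith
    obtain ⟨v, hv⟩ := h1
    exact h.sub v (Finset.mem_filter.1 hv).2.2
  have hprod : ∏ j ∈ M, (1 - pr T j) = b * ∏ j ∈ M.erase x, (1 - pr T j) := by
    rw [← Finset.mul_prod_erase M _ hxM, hb]
  have h01 := fun j => STL_pr01 T j h.pos
  unfold Bd
  rw [hprod]
  have hS1 : 1 + 2 * b ≤ ∑ j ∈ M.erase x, pr T j := by linarith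
  have hS : c ≤ b → 2 + b - min om (4 * c) ≤ ∑ j ∈ M.erase x, pr T j := by
    intro hcb
    rcases le_total om (4 * c) with ho | ho
    · rw [min_eq_left ho]
      linarith
    · rw [min_eq_right ho]
      have h1 : 0 ≤ (om / c - 4) * (b - c) := by
        refine mul_nonneg ?_ (by linarith)
        have h2 : 4 ≤ om / c := by
          rw [le_div_iff₀ hc]
          exact ho
        linarith
      have h2 : om / c * c = om := div_mul_cancel₀ _ hc.ne'
      have h3 : (om / c - 4) * (b - c) = om / c * b - om / c * c - 4 * b + 4 * c := by ring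
      rw [h3, h2] at h1
      have h4 : b * (om / c - 1) = om / c * b - b := by ring
      rw [h4] at s3'
      linarith
  have hS2 : 4 * b * (1 - b - c) ≤ ∑ j ∈ M.erase x, pr T j ^ 2 := s2
  have hA := STL_prodA hTA (M.erase x) (pr T) (fun j => (h01 j).1) (fun j => (h01 j).2)
  rcases le_total b c with hbc | hbc
  · exact (mul_le_mul_of_nonneg_left hA hb0).trans
      (hR1.2 c b _ _ hcl hcu hb0 hbc hS1 hS2)
  · rcases le_total b (9 / 20) with hb9 | hb9
    · have h1 := hS hbc
      have h2 : min om (4 * c) ≤ 4 * c := min_le_right _ _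
      exact (mul_le_mul_of_nonneg_left hA hb0).trans
        (hR1.1 c b _ _ hcl hcu hb0 hb9 (by linarith) hS2)
    · obtain ⟨L, hLM, hL1, hL2⟩ := STL_leaves M T c h hl x b (by
        intro j hj
        have h1 := s4 j hj
        rw [← hb] at h1
        exact h1)
      rw [← hom] at hL1 hL2
      have hn3 : 3 ≤ L.card := by
        have h1 : 2 * c < L.card * c := lt_of_lt_of_le hom2 hL1
        have h2 : (2 : ℝ) < L.card := lt_of_mul_lt_mul_right h1 hc.le
        have h3 : 2 < L.card := by exact_mod_cast h2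
        exact h3
      have hB := STL_prodB (M.erase x) L hLM (pr T) (fun j => (h01 j).2)
      have hom0 : 0 ≤ om := by linarith
      have hR := hR2 c b om _ _ L.card hcl hcu hb9 hb1 hom0 hn3 hL1 (hS hbc) hL2
      refine (mul_le_mul_of_nonneg_left hB hb0).trans ?_
      rw [← mul_assoc]
      exact hR

end Pool.Agent.Work.MP_1ce445_s8
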