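import Pool.Agent.Work.MP_1ce445_s8.Interface

/-!
Block TG of MP_1ce445_s8: the target.
-/

namespace Pool.Agent.Work.MP_1ce445_s8

open Finset Pool.Agent.Work.MP_1ce445_co_56 Pool.Agent.Work.MP_1ce445_lin

theorem TG_sqrt (c : ℝ) (_h1 : 1 / 7 ≤ c) (h2 : c ≤ 503 / 3000) :
    √(c * (1 - 6 * c)) ≤ 8321 / 10000 - 469 / 100 * c := by
  apply Real.sqrt_le_iff.mpr
  constructor
  · linarith
  · nlinarith [sq_nonneg (c - 8805098 / 55992200)]

theorem TG_e1 : Real.exp (-(778195 / 1000000)) ≤ 4593 / 10000 := by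
  rw [Real.exp_neg]
  apply inv_le_of_inv_le₀ (by norm_num)
  refine le_trans ?_ (Real.sum_le_exp_of_nonneg (by norm_num) 9)
  norm_num [Finset.sum_range_succ, Nat.factorial]

theorem TG_e2 : Real.exp (-(717411 / 1000000)) ≤ 4881 / 10000 := by
  rw [Real.exp_neg]
  apply inv_le_of_inv_le₀ (by norm_num)
  refine le_trans ?_ (Real.sum_le_exp_of_nonneg (by norm_num) 9)
  norm_num [Finset.sum_range_succ, Nat.factorial]

theorem TG_exp (c : ℝ) (h1 : 1 / 7 ≤ c) (h2 : c ≤ 503 / 3000) :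
    Real.exp (49 / 20 * c - 1128195 / 1000000) ≤
      4593 / 10000 + (4881 / 10000 - 4593 / 10000) * ((c - 1 / 7) / (503 / 3000 - 1 / 7)) := by
  set t : ℝ := (c - 1 / 7) / (503 / 3000 - 1 / 7) with ht
  have ht0 : 0 ≤ t := div_nonneg (by linarith) (by norm_num)
  have ht1 : t ≤ 1 := by
    rw [ht, div_le_one (by norm_num)]
    linarith
  have hc : c = (1 - t) * (1 / 7) + t * (503 / 3000) := by
    rw [ht]; field_simp; ring
  have hle : 49 / 20 * c - 1128195 / 1000000 ≤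
      (1 - t) * (-(778195 / 1000000)) + t * (-(717411 / 1000000)) := by
    rw [hc]; nlinarith
  have hconv := convexOn_exp.2 (Set.mem_univ (-(778195 / 1000000 : ℝ)))
    (Set.mem_univ (-(717411 / 1000000 : ℝ))) (by linarith : (0 : ℝ) ≤ 1 - t) ht0 (by ring)
  simp only [smul_eq_mul] at hconv
  have h3 := Real.exp_le_exp.mpr hle
  have h4 := TG_e1
  have h5 := TG_e2
  have h6 : (1 - t) * Real.exp (-(778195 / 1000000)) ≤ (1 - t) * (4593 / 10000) :=
    mul_le_mul_of_nonneg_left h4 (by linarith)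
  have h7 : t * Real.exp (-(717411 / 1000000)) ≤ t * (4881 / 10000) :=
    mul_le_mul_of_nonneg_left h5 ht0
  linarith

theorem TG_root (c : ℝ) (h1 : 1 / 7 ≤ c) (h2 : c ≤ 503 / 3000) :
    Real.exp (49 / 20 * c - 1128195 / 1000000) ≤ (2 - √(c * (1 - 6 * c))) / 4 := by
  have a := TG_exp c h1 h2
  have b := TG_sqrt c h1 h2
  have e : (c - 1 / 7) / (503 / 3000 - 1 / 7) = (c - 1 / 7) * (21000 / 521) := by
    field_simp
    ring
  rw [e] at a
  linarith

theorem TG_F8 (c : ℝ) (h1 : 1 / 7 ≤ c) (h2 : c ≤ 503 / 3000) :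
    Real.exp (-32329 / 10000 + 49 / 5 * (c - 653 / 5000)) ≤ F8 c := by
  have a := TG_root c h1 h2
  have e : Real.exp (-32329 / 10000 + 49 / 5 * (c - 653 / 5000)) ≤
      Real.exp (49 / 20 * c - 1128195 / 1000000) ^ 4 := by
    rw [← Real.exp_nat_mul]
    apply Real.exp_le_exp.mpr
    push_cast
    linarith
  refine e.trans ?_
  unfold F8
  exact pow_le_pow_left₀ (Real.exp_pos _).le a 4

theorem BB_of_in {c : ℝ} (h1 : 1 / 7 ≤ c) (h2 : c ≤ 503 / 3000) : BB c = F8 c := by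
  unfold BB
  rw [if_pos ⟨h1, h2⟩]

theorem le_BB_of {c x : ℝ} (hx : x ≤ 1000) (h : 1 / 7 ≤ c → c ≤ 503 / 3000 → x ≤ F8 c) :
    x ≤ BB c := by
  unfold BB
  split_ifs with hc
  · exact h hc.1 hc.2
  · exact hx

theorem F8_ge (c : ℝ) (h1 : 1 / 7 ≤ c) (h2 : c ≤ 503 / 3000) : 1 / 27 ≤ F8 c := by
  have b := TG_sqrt c h1 h2
  have h : (459 / 1000 : ℝ) ≤ (2 - √(c * (1 - 6 * c))) / 4 := by linarith
  have h3 := pow_le_pow_left₀ (by norm_num) h 4
  unfold F8
  refine le_trans (by norm_num) h3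

theorem F8_PH (c : ℝ) (h1 : 1 / 7 ≤ c) (h2 : c ≤ 503 / 3000) :
    (1 + 2 * c) ^ 4 / 64 ≤ F8 c := by
  have b := TG_sqrt c h1 h2
  have h : (1 + 2 * c) * (35356 / 100000) ≤ (2 - √(c * (1 - 6 * c))) / 4 := by linarith
  have h3 := pow_le_pow_left₀ (by nlinarith) h 4
  unfold F8
  refine le_trans ?_ h3
  rw [mul_pow]
  have : (0 : ℝ) ≤ (1 + 2 * c) ^ 4 := by positivity
  nlinarith

theorem BB_ge (c : ℝ) : 1 / 27 ≤ BB c :=
  le_BB_of (by norm_num) fun h1 h2 => F8_ge c h1 h2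

theorem BB_PH (c : ℝ) (h0 : 0 ≤ c) (h1 : c ≤ 1) : (1 + 2 * c) ^ 4 / 64 ≤ BB c := by
  refine le_BB_of ?_ fun h1 h2 => F8_PH c h1 h2
  have h3 := pow_le_pow_left₀ (by linarith) (by linarith : 1 + 2 * c ≤ 3) 4
  linarith

/-- The block. -/
theorem stmt_TG : Stmt_TG := by
  intro c a m h1 h2 hm ha hb
  have hneg : a + m * c ≤ 0 := by
    rcases le_total 0 m with h0 | h0
    · nlinarith
    · nlinarith
  apply le_BB_of
  · have : Real.exp (a + m * c) ≤ 1 := Real.exp_le_one_iff.mpr hneg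
    linarith
  · intro h3 h4
    refine le_trans (Real.exp_le_exp.mpr ?_) (TG_F8 c h3 h4)
    nlinarith

end Pool.Agent.Work.MP_1ce445_s8
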