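import Pool.Agent.Work.MP_1ce445_s8.Interface

/-! # Block TLL (MP_1ce445_co, theorem S7): closed light triangle (helper49) -/

namespace Pool.Agent.Work.MP_1ce445_s8

open Finset Pool.Agent.Work.MP_1ce445_co_56 Pool.Agent.Work.MP_1ce445_lin

theorem TLL_log : (78 / 100 : ℝ) ≤ Real.log (11 / 5) := by
  have e : (11 / 5 : ℝ) = 2 * (11 / 10) := by norm_num
  rw [e, Real.log_mul (by norm_num) (by norm_num)]
  have h1 := Real.log_two_gt_d9
  have h2 := Real.one_sub_inv_le_log_of_pos (show (0 : ℝ) < 11 / 10 by norm_num)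
  have h3 : (1 : ℝ) - (11 / 10)⁻¹ = 1 / 11 := by norm_num
  rw [h3] at h2
  linarith

theorem TLL_miss {V : Type} [Fintype V] {k : ℕ} {M : Finset (Fin k)} {T : V → Finset (Fin k)}
    {c : ℝ} (hK : Kf M T c) (a b : Fin k) (h : R T a b) :
    (∑ v, if a ∉ T v ∧ b ∉ T v then (6 / 5 : ℝ) else 0) ≤ 6 / 5 * (c * Fintype.card V) := by
  classical
  obtain ⟨-, v0, hv0⟩ := h
  have h1 := hK.few v0
  have e : (∑ v, if a ∉ T v ∧ b ∉ T v then (6 / 5 : ℝ) else 0) =
      6 / 5 * ((univ.filter (fun w => T v0 ∩ T w = ∅)).card : ℝ) := by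
    rw [← Finset.sum_filter, Finset.sum_const, nsmul_eq_mul, mul_comm]
    congr 3
    ext w
    simp only [Finset.mem_filter, Finset.mem_univ, true_and]
    rw [hv0]
    constructor
    · rintro ⟨h1, h2⟩
      ext x
      simp only [Finset.mem_inter, Finset.mem_insert, Finset.mem_singleton, Finset.notMem_empty,
        iff_false, not_and]
      rintro (rfl | rfl)
      · exact h1
      · exact h2
    · intro h
      constructor
      · intro ha
        have : a ∈ ({a, b} : Finset (Fin k)) ∩ T w := by simp [ha]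
        rw [h] at this
        simp at this
      · intro hb
        have : b ∈ ({a, b} : Finset (Fin k)) ∩ T w := by simp [hb]
        rw [h] at this
        simp at this
  rw [e]
  linarith

theorem TLL_eq {V : Type} [Fintype V] {k : ℕ} {T : V → Finset (Fin k)}
    {c : ℝ} (hL : Light T c) (a b : Fin k) (h : a ≠ b) :
    (∑ v, if T v = {a, b} then (1 : ℝ) else 0) ≤ c * Fintype.card V := by
  classical
  have h1 := hL a b h
  unfold nx at h1
  rw [← Finset.sum_filter, Finset.sum_const, nsmul_eq_mul, mul_one]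
  convert h1

theorem TLL_card {k : ℕ} (S : Finset (Fin k)) (x1 x2 x3 : Fin k) (h12 : x1 ≠ x2) (h13 : x1 ≠ x3)
    (h23 : x2 ≠ x3) (hS : S ⊆ {x1, x2, x3}) (h2 : S.card = 2) :
    S = {x1, x2} ∨ S = {x2, x3} ∨ S = {x3, x1} := by
  classical
  obtain ⟨a, b, hab, rfl⟩ := Finset.card_eq_two.1 h2
  have ha : a ∈ ({x1, x2, x3} : Finset (Fin k)) := hS (by simp)
  have hb : b ∈ ({x1, x2, x3} : Finset (Fin k)) := hS (by simp)
  simp only [Finset.mem_insert, Finset.mem_singleton] at ha hb
  rcases ha with rfl | rfl | rfl <;> rcases hb with rfl | rfl | rfl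
  · exact absurd rfl hab
  · exact Or.inl rfl
  · exact Or.inr (Or.inr (Finset.pair_comm _ _))
  · exact Or.inl (Finset.pair_comm _ _)
  · exact absurd rfl hab
  · exact Or.inr (Or.inl rfl)
  · exact Or.inr (Or.inr rfl)
  · exact Or.inr (Or.inl (Finset.pair_comm _ _))
  · exact absurd rfl hab

theorem TLL_nonneg (P : Prop) [Decidable P] : (0 : ℝ) ≤ if P then (1 : ℝ) else 0 := by
  split_ifs <;> norm_num

theorem stmt_TLL (h1 : Stmt_TG) (h2 : Stmt_LPC) : Stmt_TLL := by
  classical
  intro V _ k M T c hK hL x1 x2 x3 r1 r2 r3 hin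
  have n12 := r1.1
  have n23 := r2.1
  have n31 := r3.1
  have n13 : x1 ≠ x3 := fun h => r3.1 h.symm
  have hN : (0 : ℝ) < Fintype.card V := by exact_mod_cast hK.pos
  have hinj : Function.Injective (![x1, x2, x3] : Fin 3 → Fin k) := by
    intro i j hij
    fin_cases i <;> fin_cases j <;> first | rfl | (exfalso; revert hij; simp [n12, n23, n13, n12.symm, n23.symm, n13.symm])
  set ph : V → ℝ := fun v =>
    ((if x1 ∉ T v ∧ x2 ∉ T v then (6 / 5 : ℝ) else 0) +
      (if x2 ∉ T v ∧ x3 ∉ T v then (6 / 5 : ℝ) else 0) +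
      (if x3 ∉ T v ∧ x1 ∉ T v then (6 / 5 : ℝ) else 0)) +
    ((if T v = {x1, x2} then (1 : ℝ) else 0) +
      (if T v = {x2, x3} then (1 : ℝ) else 0) +
      (if T v = {x3, x1} then (1 : ℝ) else 0)) with hph
  have hsum : (∑ v, ph v) ≤ 33 / 5 * (c * Fintype.card V) := by
    simp only [hph, Finset.sum_add_distrib]
    have a1 := TLL_miss hK x1 x2 r1
    have a2 := TLL_miss hK x2 x3 r2
    have a3 := TLL_miss hK x3 x1 r3
    have b1 := TLL_eq hL x1 x2 n12
    have b2 := TLL_eq hL x2 x3 n23
    have b3 := TLL_eq hL x3 x1 n31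
    linarith
  have key := h2 M T hK.pos hK.sub 3 ![x1, x2, x3] (fun _ => 11 / 5) ph (27 / 5) hinj
    (fun _ => by norm_num)
    (by
      intro v
      simp only [Fin.sum_univ_three]
      show (27 / 5 : ℝ) ≤ ((T v).card : ℝ) + ((if x1 ∈ T v then (11 / 5 : ℝ) - 1 else 0) +
        (if x2 ∈ T v then (11 / 5 : ℝ) - 1 else 0) + (if x3 ∈ T v then (11 / 5 : ℝ) - 1 else 0)) +
        (((if x1 ∉ T v ∧ x2 ∉ T v then (6 / 5 : ℝ) else 0) +
      (if x2 ∉ T v ∧ x3 ∉ T v then (6 / 5 : ℝ) else 0) +
      (if x3 ∉ T v ∧ x1 ∉ T v then (6 / 5 : ℝ) else 0)) +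
    ((if T v = {x1, x2} then (1 : ℝ) else 0) +
      (if T v = {x2, x3} then (1 : ℝ) else 0) +
      (if T v = {x3, x1} then (1 : ℝ) else 0)))
      rcases Nat.lt_or_ge 2 (T v).card with h3 | h3
      · have h3' : (3 : ℝ) ≤ ((T v).card : ℝ) := by exact_mod_cast h3
        have c1 := TLL_nonneg (T v = {x1, x2})
        have c2 := TLL_nonneg (T v = {x2, x3})
        have c3 := TLL_nonneg (T v = {x3, x1})
        by_cases q1 : x1 ∈ T v <;> by_cases q2 : x2 ∈ T v <;> by_cases q3 : x3 ∈ T v <;>
          simp only [q1, q2, q3, if_true, if_false, not_true, not_false_eq_true, and_self,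
            and_true, and_false] <;> linarith
      · have h4 : (T v).card = 2 := le_antisymm h3 (hK.two v)
        have h4' : ((T v).card : ℝ) = 2 := by exact_mod_cast h4
        rw [h4']
        rcases TLL_card (T v) x1 x2 x3 n12 n13 n23 (hin v h4) h4 with e | e | e
        · have d1 := TLL_nonneg (T v = {x2, x3})
          have d2 := TLL_nonneg (T v = {x3, x1})
          have q1 : x1 ∈ T v := by rw [e]; simp
          have q2 : x2 ∈ T v := by rw [e]; simp
          have q3 : x3 ∉ T v := by rw [e]; simp [n13.symm, n23.symm]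
          rw [if_pos e]
          simp only [q1, q2, q3, if_true, if_false, not_true, not_false_eq_true, and_self,
            and_true, and_false, false_and]
          linarith
        · have d1 := TLL_nonneg (T v = {x1, x2})
          have d2 := TLL_nonneg (T v = {x3, x1})
          have q1 : x1 ∉ T v := by rw [e]; simp [n13, n12]
          have q2 : x2 ∈ T v := by rw [e]; simp
          have q3 : x3 ∈ T v := by rw [e]; simp
          rw [if_pos e]
          simp only [q1, q2, q3, if_true, if_false, not_true, not_false_eq_true, and_self,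
            and_true, and_false, false_and]
          linarith
        · have d1 := TLL_nonneg (T v = {x1, x2})
          have d2 := TLL_nonneg (T v = {x2, x3})
          have q1 : x1 ∈ T v := by rw [e]; simp
          have q2 : x2 ∉ T v := by rw [e]; simp [n12.symm, n23]
          have q3 : x3 ∈ T v := by rw [e]; simp
          rw [if_pos e]
          simp only [q1, q2, q3, if_true, if_false, not_true, not_false_eq_true, and_self,
            and_true, and_false, false_and]
          linarith)
  unfold Bd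
  refine key.trans ?_
  refine le_trans ?_ (h1 c (3 * (6 / 5 - Real.log (11 / 5)) - 27 / 5) (33 / 5) hK.cl hK.cu
    (by norm_num) (by have := TLL_log; linarith) (by have := TLL_log; linarith))
  apply Real.exp_le_exp.2
  have hs : (∑ i : Fin 3, ((11 / 5 : ℝ) - 1 - Real.log (11 / 5))) =
      3 * (6 / 5 - Real.log (11 / 5)) := by
    simp only [Finset.sum_const, Finset.card_univ, Fintype.card_fin, nsmul_eq_mul]
    push_cast
    ring
  have h5 : (∑ v, ph v) / Fintype.card V ≤ 33 / 5 * c := by
    rw [div_le_iff₀ hN]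
    linarith
  have h6 : (0 : ℝ) ≤ ∑ x ∈ M.filter (fun x => ∀ i, x ≠ (![x1, x2, x3] : Fin 3 → Fin k) i),
      pr T x ^ 2 := Finset.sum_nonneg (fun _ _ => sq_nonneg _)
  rw [hs]
  linarith

end Pool.Agent.Work.MP_1ce445_s8
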