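import Pool.Agent.Work.MP_1ce445_k4.Interface

/-!
THEOREM S8 for MP_1ce445_co: the port of S7 with the target `F8 c = ((2 - √(c (1 - 6c)))/4)⁴` on `1/7 ≤ c ≤ 503/3000`, for
set systems without four points all of whose six pairs are present (field `nok4`). `BB` is `F8` on this interval and
`1000` outside, so that the statements and proofs of `MP_1ce445_s7` can be used without change. New proofs: TG, K4,
THH, PH, ALG (the target). The docstrings of the blocks are in `MP_1ce445_s7/Interface.lean`.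
-/

namespace Pool.Agent.Work.MP_1ce445_s8

open Finset Pool.Agent.Work.MP_1ce445_co_56 Pool.Agent.Work.MP_1ce445_lin

/-- the pair `a, b` is present -/
def R {V : Type} {k : ℕ} (T : V → Finset (Fin k)) (a b : Fin k) : Prop :=
  a ≠ b ∧ ∃ v, T v = {a, b}

/-- The hypotheses on the set system without the condition on the size. -/
structure Kg {V : Type} [Fintype V] {k : ℕ} (M : Finset (Fin k)) (T : V → Finset (Fin k))
    (c : ℝ) : Prop where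
  pos : 0 < Fintype.card V
  sub : ∀ v, T v ⊆ M
  cl : 301 / 2500 ≤ c
  cu : c ≤ 17 / 100
  few : ∀ v, ((univ.filter (fun w => T v ∩ T w = ∅)).card : ℝ) ≤ c * Fintype.card V
  nok4 : ∀ x1 x2 x3 x4 : Fin k, [x1, x2, x3, x4].Nodup → R T x1 x2 → R T x1 x3 → R T x1 x4 →
    R T x2 x3 → R T x2 x4 → R T x3 x4 → False

/-- The hypotheses on the set system: all sets have at least two elements. -/
structure Kf {V : Type} [Fintype V] {k : ℕ} (M : Finset (Fin k)) (T : V → Finset (Fin k))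
    (c : ℝ) : Prop extends Kg M T c where
  two : ∀ v, 2 ≤ (T v).card

/-- number of the `v` with `T v = {a, b}` -/
def nx {V : Type} [Fintype V] {k : ℕ} (T : V → Finset (Fin k)) (a b : Fin k) : ℕ :=
  (univ.filter (fun v => T v = {a, b})).card

/-- number of the sets with two elements -/
def n2 {V : Type} [Fintype V] {k : ℕ} (T : V → Finset (Fin k)) : ℕ :=
  (univ.filter (fun v => (T v).card = 2)).card

/-- no heavy pair -/
def Light {V : Type} [Fintype V] {k : ℕ} (T : V → Finset (Fin k)) (c : ℝ) : Prop :=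
  ∀ a b : Fin k, a ≠ b → (nx T a b : ℝ) ≤ c * Fintype.card V

/-- the value on `[1/7, 1/6]` (and `1/16` above) -/
noncomputable def F8 (c : ℝ) : ℝ := ((2 - √(c * (1 - 6 * c))) / 4) ^ 4

open Classical in
/-- the bound -/
noncomputable def BB (c : ℝ) : ℝ := if 1 / 7 ≤ c ∧ c ≤ 503 / 3000 then F8 c else 1000

/-- the bound for the product -/
def Bd {V : Type} [Fintype V] {k : ℕ} (M : Finset (Fin k)) (T : V → Finset (Fin k)) (c : ℝ) :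
    Prop :=
  ∏ x ∈ M, (1 - pr T x) ≤ BB c

/-! ### Tools -/

def Stmt_TG : Prop :=
  ∀ c a m : ℝ, 301 / 2500 ≤ c → c ≤ 17 / 100 → m ≤ 49 / 5 → a + 301 / 2500 * m ≤ -32961 / 10000 →
    a + 653 / 5000 * m ≤ -32329 / 10000 → Real.exp (a + m * c) ≤ BB c

def Stmt_TA : Prop :=
  ∀ p : ℝ, 0 ≤ p → p ≤ 1 → 1 - p ≤ Real.exp (-(8883 / 10000 * p + 1943 / 2000 * p ^ 2))

def Stmt_LPC : Prop :=
  ∀ {V : Type} [Fintype V] {k : ℕ} (M : Finset (Fin k)) (T : V → Finset (Fin k)),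
    0 < Fintype.card V → (∀ v, T v ⊆ M) → ∀ (m : ℕ) (p : Fin m → Fin k) (l : Fin m → ℝ)
      (ph : V → ℝ) (K : ℝ), Function.Injective p → (∀ i, 1 ≤ l i) →
    (∀ v, K ≤ ((T v).card : ℝ) + (∑ i, if p i ∈ T v then l i - 1 else 0) + ph v) →
    ∏ x ∈ M, (1 - pr T x) ≤
      Real.exp (∑ i, (l i - 1 - Real.log (l i)) - K + (∑ v, ph v) / Fintype.card V -
        (∑ x ∈ M.filter (fun x => ∀ i, x ≠ p i), pr T x ^ 2) / 2)

def Stmt_THR : Prop :=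
  ∀ {V : Type} [Fintype V] {k : ℕ} (M : Finset (Fin k)) (T : V → Finset (Fin k)) (c : ℝ),
    Kf M T c → (n2 T : ℝ) ≤ 2 * c * Fintype.card V → Bd M T c

/-! ### Patterns. In each of them: LPC with the given named points and weights, `ph v` = the sum of the multipliers `mu`
of the present pairs which `T v` misses (both points not in `T v`), of the multipliers `nu` of the pairs with `T v = ` pair
(for pairs with `nx ≤ c N`), and the further terms given; `K` = the minimum over all possible `T v` (2-sets: the present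
pairs; otherwise `|T v| ≥ 3`); then TG. -/

def Stmt_M3 : Prop :=
  ∀ {V : Type} [Fintype V] {k : ℕ} (M : Finset (Fin k)) (T : V → Finset (Fin k)) (c : ℝ),
    Kf M T c → ∀ a1 b1 a2 b2 a3 b3 : Fin k, [a1, b1, a2, b2, a3, b3].Nodup → R T a1 b1 →
    R T a2 b2 → R T a3 b3 → Bd M T c

def Stmt_TE : Prop :=
  ∀ {V : Type} [Fintype V] {k : ℕ} (M : Finset (Fin k)) (T : V → Finset (Fin k)) (c : ℝ),
    Kf M T c → ∀ x1 x2 x3 y1 y2 : Fin k, [x1, x2, x3, y1, y2].Nodup → R T x1 x2 → R T x2 x3 →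
    R T x3 x1 → R T y1 y2 → Bd M T c

def Stmt_C5 : Prop :=
  ∀ {V : Type} [Fintype V] {k : ℕ} (M : Finset (Fin k)) (T : V → Finset (Fin k)) (c : ℝ),
    Kf M T c → ∀ p : Fin 5 → Fin k, Function.Injective p → (∀ i, R T (p i) (p (i + 1))) →
    (∀ v, (T v).card = 2 → ∃ i, T v = {p i, p (i + 1)}) → Bd M T c

def Stmt_TLL : Prop :=
  ∀ {V : Type} [Fintype V] {k : ℕ} (M : Finset (Fin k)) (T : V → Finset (Fin k)) (c : ℝ),
    Kf M T c → Light T c → ∀ x1 x2 x3 : Fin k, R T x1 x2 → R T x2 x3 → R T x3 x1 →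
    (∀ v, (T v).card = 2 → T v ⊆ {x1, x2, x3}) → Bd M T c

def Stmt_THL : Prop :=
  ∀ {V : Type} [Fintype V] {k : ℕ} (M : Finset (Fin k)) (T : V → Finset (Fin k)) (c : ℝ),
    Kf M T c → ∀ x1 x2 x3 : Fin k, x1 ≠ x2 → x1 ≠ x3 → c * Fintype.card V < nx T x1 x2 →
    c * Fintype.card V < nx T x1 x3 → R T x2 x3 → (nx T x2 x3 : ℝ) ≤ c * Fintype.card V →
    (∀ v, (T v).card = 2 → T v ⊆ {x1, x2, x3}) → Bd M T c

def Stmt_THH : Prop :=
  ∀ {V : Type} [Fintype V] {k : ℕ} (M : Finset (Fin k)) (T : V → Finset (Fin k)) (c : ℝ),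
    Kf M T c → ∀ x1 x2 x3 : Fin k, x1 ≠ x2 → x1 ≠ x3 → x2 ≠ x3 →
    c * Fintype.card V < nx T x1 x2 → c * Fintype.card V < nx T x1 x3 →
    c * Fintype.card V < nx T x2 x3 → Bd M T c

def Stmt_PWH : Prop :=
  ∀ {V : Type} [Fintype V] {k : ℕ} (M : Finset (Fin k)) (T : V → Finset (Fin k)) (c : ℝ),
    Kf M T c → ∀ x y z w : Fin k, [x, y, z, w].Nodup → c * Fintype.card V < nx T x y →
    c * Fintype.card V < nx T x z → R T y z → (nx T y z : ℝ) ≤ c * Fintype.card V → R T x w →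
    (∀ v, (T v).card = 2 → x ∈ T v ∨ T v = {y, z}) → Bd M T c

def Stmt_PWL : Prop :=
  ∀ {V : Type} [Fintype V] {k : ℕ} (M : Finset (Fin k)) (T : V → Finset (Fin k)) (c : ℝ),
    Kf M T c → Light T c → ∀ x y z w : Fin k, [x, y, z, w].Nodup → R T x y → R T x z →
    R T y z → R T x w → (∀ v, (T v).card = 2 → x ∈ T v ∨ T v = {y, z}) →
    9 / 20 ≤ 1 - pr T x → Bd M T c

def Stmt_D11 : Prop :=
  ∀ {V : Type} [Fintype V] {k : ℕ} (M : Finset (Fin k)) (T : V → Finset (Fin k)) (c : ℝ),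
    Kf M T c → Light T c → ∀ x y a b : Fin k, [x, y, a, b].Nodup → R T x y → R T x a →
    R T y b → (∀ v, (T v).card = 2 → T v = {x, y} ∨ T v = {x, a} ∨ T v = {y, b}) → Bd M T c

def Stmt_D21 : Prop :=
  ∀ {V : Type} [Fintype V] {k : ℕ} (M : Finset (Fin k)) (T : V → Finset (Fin k)) (c : ℝ),
    Kf M T c → Light T c → ∀ x y a a' b : Fin k, [x, y, a, a', b].Nodup → R T x y → R T x a →
    R T x a' → R T y b → (∀ v, (T v).card = 2 → (x ∈ T v ∧ b ∉ T v) ∨ T v = {y, b}) → Bd M T c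

def Stmt_D22 : Prop :=
  ∀ {V : Type} [Fintype V] {k : ℕ} (M : Finset (Fin k)) (T : V → Finset (Fin k)) (c : ℝ),
    Kf M T c → Light T c → ∀ x y a a' b b' : Fin k, [x, y, a, a', b, b'].Nodup → R T x y →
    R T x a → R T x a' → R T y b → R T y b' →
    (∀ v, (T v).card = 2 → (x ∈ T v ∧ b ∉ T v ∧ b' ∉ T v) ∨ (y ∈ T v ∧ a ∉ T v ∧ a' ∉ T v)) →
    Bd M T c

def Stmt_DW : Prop :=
  ∀ {V : Type} [Fintype V] {k : ℕ} (M : Finset (Fin k)) (T : V → Finset (Fin k)) (c : ℝ),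
    Kf M T c → Light T c → ∀ x y a b w : Fin k, [x, y, a, b, w].Nodup → R T x y →
    R T x a → R T y b → R T x w → R T y w →
    (∀ v, (T v).card = 2 → (x ∈ T v ∧ b ∉ T v) ∨ (y ∈ T v ∧ a ∉ T v)) → Bd M T c

/-! ### 4-cycles `x1 x3 x2 x4` -/

def Stmt_PH : Prop :=
  ∀ {V : Type} [Fintype V] {k : ℕ} (M : Finset (Fin k)) (T : V → Finset (Fin k)) (c : ℝ),
    Kf M T c → ∀ x1 x2 x3 x4 : Fin k, [x1, x2, x3, x4].Nodup → R T x1 x3 → R T x1 x4 →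
    R T x2 x3 → R T x2 x4 → c * Fintype.card V < nx T x1 x2 → Bd M T c

def Stmt_K4 : Prop :=
  ∀ {V : Type} [Fintype V] {k : ℕ} (M : Finset (Fin k)) (T : V → Finset (Fin k)) (c : ℝ),
    Kf M T c → ∀ x1 x2 x3 x4 : Fin k, [x1, x2, x3, x4].Nodup → R T x1 x3 → R T x1 x4 →
    R T x2 x3 → R T x2 x4 → R T x1 x2 → R T x3 x4 → Bd M T c

/-- mass of the `T v` which contain `a` and `b` and neither `x` nor `y` -/
noncomputable def tr {V : Type} [Fintype V] {k : ℕ} (T : V → Finset (Fin k)) (a b x y : Fin k) : ℝ :=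
  ((univ.filter (fun v => a ∈ T v ∧ b ∈ T v ∧ x ∉ T v ∧ y ∉ T v)).card : ℝ) / Fintype.card V

def Stmt_C4S : Prop :=
  ∀ {V : Type} [Fintype V] {k : ℕ} (M : Finset (Fin k)) (T : V → Finset (Fin k)) (c : ℝ),
    Kf M T c → ∀ x1 x2 x3 x4 : Fin k, [x1, x2, x3, x4].Nodup →
    4 * (tr T x3 x4 x1 x2 * (tr T x1 x2 x3 x4 - c)) ≤
      ∑ x ∈ M.filter (fun x => ∀ i, x ≠ ![x1, x2, x3, x4] i), pr T x ^ 2

def Stmt_CKA : Prop :=
  ∀ {V : Type} [Fintype V] {k : ℕ} (M : Finset (Fin k)) (T : V → Finset (Fin k)) (c : ℝ),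
    Kf M T c → ∀ x1 x2 x3 x4 : Fin k, [x1, x2, x3, x4].Nodup → R T x1 x3 → R T x1 x4 →
    R T x2 x3 → R T x2 x4 → R T x1 x2 → (nx T x1 x2 : ℝ) ≤ c * Fintype.card V → ¬ R T x3 x4 →
    1 / 10 ≤ tr T x3 x4 x1 x2 → Bd M T c

def Stmt_CIA : Prop :=
  ∀ {V : Type} [Fintype V] {k : ℕ} (M : Finset (Fin k)) (T : V → Finset (Fin k)) (c : ℝ),
    Kf M T c → ∀ x1 x2 x3 x4 : Fin k, [x1, x2, x3, x4].Nodup → R T x1 x3 → R T x1 x4 →
    R T x2 x3 → R T x2 x4 → ¬ R T x1 x2 → ¬ R T x3 x4 →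
    1 / 10 ≤ tr T x3 x4 x1 x2 → Bd M T c

def Stmt_CB : Prop :=
  ∀ {V : Type} [Fintype V] {k : ℕ} (M : Finset (Fin k)) (T : V → Finset (Fin k)) (c : ℝ),
    Kf M T c → ∀ x1 x2 x3 x4 : Fin k, [x1, x2, x3, x4].Nodup → R T x1 x3 → R T x1 x4 →
    R T x2 x3 → R T x2 x4 → (nx T x1 x2 : ℝ) ≤ c * Fintype.card V → ¬ R T x3 x4 →
    tr T x3 x4 x1 x2 ≤ 1 / 10 → Bd M T c

def Stmt_C4 : Prop :=
  ∀ {V : Type} [Fintype V] {k : ℕ} (M : Finset (Fin k)) (T : V → Finset (Fin k)) (c : ℝ),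
    Kf M T c → ∀ x1 x2 x3 x4 : Fin k, [x1, x2, x3, x4].Nodup → R T x1 x3 → R T x1 x4 →
    R T x2 x3 → R T x2 x4 → Bd M T c

/-! ### Stars -/

def Stmt_STA : Prop :=
  ∀ {V : Type} [Fintype V] {k : ℕ} (M : Finset (Fin k)) (T : V → Finset (Fin k)) (c : ℝ),
    Kf M T c → ∀ (x : Fin k) (om e0 : ℝ),
    om = ((univ.filter (fun v => (T v).card = 2 ∧ x ∈ T v)).card : ℝ) / Fintype.card V →
    e0 = ((univ.filter (fun v => (T v).card = 2 ∧ x ∉ T v)).card : ℝ) / Fintype.card V →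
    2 + (1 - pr T x) - om - e0 ≤ ∑ j ∈ M.erase x, pr T j ∧
    4 * (1 - pr T x) * (pr T x - c) ≤ ∑ j ∈ M.erase x, pr T j ^ 2 ∧
    (e0 = 0 → Light T c →
      2 * pr T x - om + (1 - pr T x) * (om / c - 1) ≤ ∑ j ∈ M.erase x, pr T j) ∧
    ∀ j, R T x j → (nx T x j : ℝ) / Fintype.card V + (1 - pr T x) - c ≤ pr T j

def Stmt_R1 : Prop :=
  (∀ c b S S2 : ℝ, 301 / 2500 ≤ c → c ≤ 17 / 100 → 0 ≤ b → b ≤ 9 / 20 → 2 + b - 4 * c ≤ S →
    4 * b * (1 - b - c) ≤ S2 →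
    b * Real.exp (-(8883 / 10000 * S + 1943 / 2000 * S2)) ≤ BB c) ∧
  ∀ c b S S2 : ℝ, 301 / 2500 ≤ c → c ≤ 17 / 100 → 0 ≤ b → b ≤ c → 1 + 2 * b ≤ S →
    4 * b * (1 - b - c) ≤ S2 →
    b * Real.exp (-(8883 / 10000 * S + 1943 / 2000 * S2)) ≤ BB c

def Stmt_R2 : Prop :=
  ∀ (c b om S Sn : ℝ) (n : ℕ), 301 / 2500 ≤ c → c ≤ 17 / 100 → 9 / 20 ≤ b → b ≤ 1 → 0 ≤ om →
    3 ≤ n → om ≤ n * c → 2 + b - min om (4 * c) ≤ S → om + n * (b - c) ≤ Sn →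
    b * (5 / 9 * Real.exp (4 / 5)) ^ n * Real.exp (-(4 / 5 * Sn + S)) ≤ BB c

def Stmt_STL : Prop :=
  ∀ {V : Type} [Fintype V] {k : ℕ} (M : Finset (Fin k)) (T : V → Finset (Fin k)) (c : ℝ),
    Kf M T c → Light T c → ∀ x : Fin k, (∀ v, (T v).card = 2 → x ∈ T v) →
    2 * c * Fintype.card V < n2 T → Bd M T c

def Stmt_PWS : Prop :=
  ∀ {V : Type} [Fintype V] {k : ℕ} (M : Finset (Fin k)) (T : V → Finset (Fin k)) (c : ℝ),
    Kf M T c → Light T c → ∀ x y z : Fin k, [x, y, z].Nodup → R T y z →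
    (∀ v, (T v).card = 2 → x ∈ T v ∨ T v = {y, z}) → 1 - pr T x ≤ 9 / 20 → Bd M T c

/-! ### A heavy pair -/

def Stmt_HVR : Prop :=
  ∀ c b g S S2 : ℝ, 301 / 2500 ≤ c → c ≤ 17 / 100 → 0 ≤ b → 0 ≤ g → b + g ≤ 1 → 0 ≤ S → 0 ≤ S2 →
    4 * b * (g - c) ≤ S2 → 4 * g * (b - c) ≤ S2 →
    (2 * b + 2 * g - 3 * c ≤ S ∨ 2 * b + g ≤ S ∨ b + 2 * g ≤ S) →
    b * g * Real.exp (-(8883 / 10000 * S + 1943 / 2000 * S2)) ≤ BB c

/-- mass of the 2-sets which contain `a` and not `b` -/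
noncomputable def pw {V : Type} [Fintype V] {k : ℕ} (T : V → Finset (Fin k)) (a b : Fin k) : ℝ :=
  ((univ.filter (fun v => (T v).card = 2 ∧ a ∈ T v ∧ b ∉ T v)).card : ℝ) / Fintype.card V

def Stmt_HV : Prop :=
  ∀ {V : Type} [Fintype V] {k : ℕ} (M : Finset (Fin k)) (T : V → Finset (Fin k)) (c : ℝ),
    Kf M T c → ∀ x y : Fin k, x ≠ y → c * Fintype.card V < nx T x y →
    (pw T x y + pw T y x ≤ 3 * c ∨ pw T x y = 0 ∨ pw T y x = 0) → Bd M T c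

def Stmt_HCA : Prop :=
  ∀ {V : Type} [Fintype V] {k : ℕ} (M : Finset (Fin k)) (T : V → Finset (Fin k)) (c : ℝ),
    Kf M T c → ∀ x y : Fin k, x ≠ y → c * Fintype.card V < nx T x y → Bd M T c

/-! ### The graphs -/

def Stmt_CL7 : Prop :=
  ∀ {k : ℕ} (Q : Fin k → Fin k → Prop), (∀ a b, Q a b → Q b a) → (∀ a, ¬ Q a a) →
    (∀ a b, ¬ Q a b) ∨
    (∃ x, ∀ u v, Q u v → u = x ∨ v = x) ∨
    (∃ a1 b1 a2 b2 a3 b3, [a1, b1, a2, b2, a3, b3].Nodup ∧ Q a1 b1 ∧ Q a2 b2 ∧ Q a3 b3) ∨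
    (∃ x1 x2 x3 x4, [x1, x2, x3, x4].Nodup ∧ Q x1 x3 ∧ Q x1 x4 ∧ Q x2 x3 ∧ Q x2 x4) ∨
    (∃ x1 x2 x3 y1 y2, [x1, x2, x3, y1, y2].Nodup ∧ Q x1 x2 ∧ Q x2 x3 ∧ Q x3 x1 ∧ Q y1 y2) ∨
    (∃ x1 x2 x3, Q x1 x2 ∧ Q x2 x3 ∧ Q x3 x1 ∧
      ∀ u v, Q u v → (u = x1 ∨ u = x2 ∨ u = x3) ∧ (v = x1 ∨ v = x2 ∨ v = x3)) ∨
    (∃ x y z w, [x, y, z, w].Nodup ∧ Q x y ∧ Q x z ∧ Q y z ∧ Q x w ∧
      ∀ u v, Q u v → u = x ∨ v = x ∨ (u = y ∧ v = z) ∨ (u = z ∧ v = y)) ∨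
    (∃ p : Fin 5 → Fin k, Function.Injective p ∧ (∀ i, Q (p i) (p (i + 1))) ∧
      ∀ u v, Q u v → ∃ i, (u = p i ∧ v = p (i + 1)) ∨ (v = p i ∧ u = p (i + 1))) ∨
    (∃ x y a b, [x, y, a, b].Nodup ∧ Q x a ∧ ¬ Q y a ∧ Q y b ∧ ¬ Q x b ∧
      ∀ u v, Q u v → u = x ∨ v = x ∨ u = y ∨ v = y)

def Stmt_DBL : Prop :=
  ∀ {V : Type} [Fintype V] {k : ℕ} (M : Finset (Fin k)) (T : V → Finset (Fin k)) (c : ℝ),
    Kf M T c → Light T c → ∀ x y a b : Fin k, [x, y, a, b].Nodup → R T x a → ¬ R T y a →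
    R T y b → ¬ R T x b → (∀ v, (T v).card = 2 → x ∈ T v ∨ y ∈ T v) → Bd M T c

def Stmt_ALT : Prop :=
  ∀ {V : Type} [Fintype V] {k : ℕ} (M : Finset (Fin k)) (T : V → Finset (Fin k)) (c : ℝ),
    Kf M T c → Bd M T c

def Stmt_ONE : Prop :=
  ∀ {V : Type} [Fintype V] {k : ℕ} (M : Finset (Fin k)) (T : V → Finset (Fin k)) (c : ℝ),
    Kg M T c → ∀ (i : Fin k) (u : V), T u = {i} → (∀ (j : Fin k) (v : V), T v = {j} → j = i) →
    Bd M T c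

def Stmt_ALG : Prop :=
  ∀ {V : Type} [Fintype V] {k : ℕ} (M : Finset (Fin k)) (T : V → Finset (Fin k)) (c : ℝ),
    Kg M T c → Bd M T c

end Pool.Agent.Work.MP_1ce445_s8
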